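import Pool.Agent.H848.FL.Cn

/-!
# Project FL: the values of the law
-/

set_option autoImplicit false

open scoped Classical

namespace Pool.Agent.H848.FL

open Finset Filter
open Pool.Agent.NH57.BL (c2)

lemma gl_eq (k : ℕ) : gl k = 2 ^ (k ^ 2) * pk k := by
  unfold gl ww pk
  have h1 : ∏ a ∈ range k, ((2 : ℝ) ^ k - 2 ^ a) =
      ∏ a ∈ range k, ((2 : ℝ) ^ k * (1 - (1 / 2 : ℝ) ^ (k - 1 - a + 1))) := by
    refine prod_congr rfl fun a ha => ?_
    rw [mem_range] at ha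
    have e1 : k - 1 - a + 1 = k - a := by omega
    have e2 : (2 : ℝ) ^ k = 2 ^ a * 2 ^ (k - a) := by
      rw [← pow_add]
      congr 1
      omega
    rw [e1, mul_sub, mul_one]
    congr 1
    rw [e2, mul_assoc, ← mul_pow]
    norm_num
  rw [h1, prod_mul_distrib, prod_const, card_range, ← pow_mul, ← pow_two]
  congr 1
  exact prod_range_reflect (fun i => (1 - (1 / 2 : ℝ) ^ (i + 1))) k

/-- the explicit form of the law -/
lemma law_eq (k : ℕ) : law c2 k = (∏' i : ℕ, (1 - (1 / 2 : ℝ) ^ (i + 1))) /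
    (2 ^ (k ^ 2) * (∏ i ∈ range k, (1 - (1 / 2 : ℝ) ^ (i + 1))) ^ 2) := by
  unfold law
  rw [gl_eq]
  have h1 : c2 = ∏' i : ℕ, (1 - (1 / 2 : ℝ) ^ (i + 1)) := rfl
  rw [h1]
  congr 1
  unfold pk
  ring

lemma c2_gt : 0.288 < c2 ∧ c2 < 0.289 :=
  (Pool.Agent.R906.QK.c2_main c2 rfl).2.2.2

lemma law_zero : law c2 0 = c2 := by
  rw [law_eq]
  have h1 : c2 = ∏' i : ℕ, (1 - (1 / 2 : ℝ) ^ (i + 1)) := rfl
  rw [← h1]
  simp

lemma law_one : law c2 1 = 2 * c2 := by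
  rw [law_eq]
  have h1 : c2 = ∏' i : ℕ, (1 - (1 / 2 : ℝ) ^ (i + 1)) := rfl
  rw [← h1]
  norm_num
  ring

lemma law_two : law c2 2 = 4 / 9 * c2 := by
  rw [law_eq]
  have h1 : c2 = ∏' i : ℕ, (1 - (1 / 2 : ℝ) ^ (i + 1)) := rfl
  rw [← h1, prod_range_succ, prod_range_succ, prod_range_zero]
  norm_num
  ring

lemma law_num : 0.288 < law c2 0 ∧ 0.864 < law c2 0 + law c2 1 ∧
    0.992 < law c2 0 + law c2 1 + law c2 2 := by
  rw [law_zero, law_one, law_two]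
  have := c2_gt.1
  refine ⟨this, ?_, ?_⟩
  · norm_num at this ⊢
    linarith
  · norm_num at this ⊢
    linarith

end Pool.Agent.H848.FL
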