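import Pool.Agent.H848.FL.Cn
import Pool.Agent.H848.FL.Num

/-!
# Project FL: the joint law of the two coranks at zero

`Ck D 0` and `Ek D 0` say that the system of `D` of the odd (even) weights has only the trivial solution.
The system of the even weights is the one of the odd weights with one more unknown and one more equation.
If one changes one coefficient of this equation then one obtains a third system, `Zk`. Over `𝔽₂` exactly
none or two of the three systems are regular. So twice the indicator function of `Ck D 0 ∧ Ek D 0` is the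
sum of the two indicator functions minus the one of `Zk D 0`.
-/

set_option autoImplicit false
set_option linter.unusedVariables false
set_option linter.unusedSectionVars false

open scoped Classical

namespace Pool.Agent.H848.FL

open Finset Filter Topology
open Pool.Agent.H519.Q7
open Pool.Agent.H848.BKD
open Pool.Agent.H848.FL.Loc
open Pool.Agent.NH57.BL (SolS c2)
open Pool.Agent.NH57.BH (aa)

/-! ### Linear algebra -/

section lin

variable {a x y : ZMod 2} {S : Finset ZI}

/-- the system has only the trivial solution -/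
def Tv (a b x y : ZMod 2) (S : Finset ZI) : Prop := ∀ z ∈ Sol a b x y S, z = 0

lemma sol_zero (a b x y : ZMod 2) (S : Finset ZI) : (0 : (ZI → ZMod 2) × ZMod 2) ∈ Sol a b x y S := by
  refine ⟨fun π _ => rfl, fun π _ => ?_, ?_⟩
  · show eO π * (0 : ZMod 2) + ∑ ρ ∈ S, s ρ π * ((0 : ZMod 2) + 0) + 0 * _ = 0
    simp
  · show a * (0 : ZMod 2) + b * ∑ ρ ∈ S, _ * (0 : ZMod 2) = 0
    simp

lemma card_one_iff (a b x y : ZMod 2) (S : Finset ZI) :
    Nat.card (Sol a b x y S) = 2 ^ 0 ↔ Tv a b x y S := by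
  rw [pow_zero, Nat.card_eq_one_iff_unique]
  constructor
  · rintro ⟨h1, -⟩ z hz
    have := h1.elim ⟨z, hz⟩ ⟨0, sol_zero a b x y S⟩
    exact congrArg Subtype.val this
  · intro h
    refine ⟨⟨fun u v => Subtype.ext ((h _ u.2).trans (h _ v.2).symm)⟩, ⟨⟨0, sol_zero a b x y S⟩⟩⟩

lemma add_self2 (u : ZMod 2) : u + u = 0 := CharTwo.add_self_eq_zero u

/-- the rows -/
def Rw (y : ZMod 2) (S : Finset ZI) (v : ZI → ZMod 2) (c : ZMod 2) : Prop :=
  (∀ π, π ∉ S → v π = 0) ∧ ∀ π ∈ S, eO π * v π + ∑ ρ ∈ S, s ρ π * (v π + v ρ) +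
    c * (gO π + (1 + y) * tO π) = 0

/-- the border -/
noncomputable def Bd (x : ZMod 2) (S : Finset ZI) (v : ZI → ZMod 2) : ZMod 2 :=
  ∑ ρ ∈ S, (dO ρ + (1 + x) * tO ρ) * v ρ

lemma mem_sol {a b x y : ZMod 2} {S : Finset ZI} {z : (ZI → ZMod 2) × ZMod 2} :
    z ∈ Sol a b x y S ↔ Rw y S z.1 z.2 ∧ a * z.2 + b * Bd x S z.1 = 0 := by
  constructor
  · rintro ⟨h1, h2, h3⟩
    exact ⟨⟨h1, h2⟩, h3⟩
  · rintro ⟨⟨h1, h2⟩, h3⟩
    exact ⟨h1, h2, h3⟩

lemma rw_add {y : ZMod 2} {S : Finset ZI} {v v' : ZI → ZMod 2} {c c' : ZMod 2} (h : Rw y S v c)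
    (h' : Rw y S v' c') : Rw y S (v + v') (c + c') := by
  refine ⟨fun π hπ => by rw [Pi.add_apply, h.1 π hπ, h'.1 π hπ, add_zero], fun π hπ => ?_⟩
  have e1 := h.2 π hπ
  have e2 := h'.2 π hπ
  have e3 : ∑ ρ ∈ S, s ρ π * ((v + v') π + (v + v') ρ) =
      ∑ ρ ∈ S, s ρ π * (v π + v ρ) + ∑ ρ ∈ S, s ρ π * (v' π + v' ρ) := by
    rw [← sum_add_distrib]
    refine sum_congr rfl fun ρ _ => ?_
    rw [Pi.add_apply, Pi.add_apply]
    ring
  rw [e3, Pi.add_apply]
  linear_combination e1 + e2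

lemma bd_add (x : ZMod 2) (S : Finset ZI) (v v' : ZI → ZMod 2) :
    Bd x S (v + v') = Bd x S v + Bd x S v' := by
  unfold Bd
  rw [← sum_add_distrib]
  refine sum_congr rfl fun ρ _ => ?_
  rw [Pi.add_apply]
  ring

lemma tv_odd {x y : ZMod 2} {S : Finset ZI} : Tv 1 0 x y S ↔ ∀ v, Rw y S v 0 → v = 0 := by
  constructor
  · intro h v hv
    exact congrArg Prod.fst (h (v, 0) (mem_sol.2 ⟨hv, by rw [mul_zero, zero_mul, add_zero]⟩))
  · rintro h ⟨v, c⟩ hz
    obtain ⟨h1, h2⟩ := mem_sol.1 hz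
    have hc : c = 0 := by
      rw [one_mul, zero_mul, add_zero] at h2
      exact h2
    subst hc
    rw [h v h1]
    rfl

/-- the first system does not depend on `x`, `y` -/
lemma tv_odd_indep {x y x' y' : ZMod 2} {S : Finset ZI} (h : Tv 1 0 x y S) : Tv 1 0 x' y' S := by
  rw [tv_odd] at h ⊢
  intro v hv
  refine h v ⟨hv.1, fun π hπ => ?_⟩
  have := hv.2 π hπ
  rw [zero_mul] at this ⊢
  exact this

/-- the rows have a solution with the last coordinate one, if they have only the trivial one with the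
last coordinate zero -/
lemma exists_one {y : ZMod 2} {S : Finset ZI} (h : ∀ v, Rw y S v 0 → v = 0) : ∃ v, Rw y S v 1 := by
  set A : (S → ZMod 2) →ₗ[ZMod 2] (S → ZMod 2) :=
    { toFun := fun v π => eO (π : ZI) * v π + ∑ ρ : S, s (ρ : ZI) (π : ZI) * (v π + v ρ)
      map_add' := fun v v' => by
        funext π
        simp only [Pi.add_apply]
        have : ∑ ρ : S, s (ρ : ZI) (π : ZI) * (v π + v' π + (v ρ + v' ρ)) =
          ∑ ρ : S, s (ρ : ZI) (π : ZI) * (v π + v ρ) + ∑ ρ : S, s (ρ : ZI) (π : ZI) * (v' π + v' ρ) := by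
          rw [← sum_add_distrib]
          exact sum_congr rfl fun ρ _ => by ring
        rw [this]
        ring
      map_smul' := fun k v => by
        funext π
        simp only [Pi.smul_apply, smul_eq_mul, RingHom.id_apply]
        rw [mul_add, mul_sum]
        congr 1
        · ring
        · exact sum_congr rfl fun ρ _ => by ring } with hA
  have hrow : ∀ (v : S → ZMod 2) (π : S), A v π = eO (π : ZI) * ez S v π +
      ∑ ρ ∈ S, s ρ π * (ez S v π + ez S v ρ) := by
    intro v π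
    rw [← Finset.sum_coe_sort S (fun ρ => s ρ π * (ez S v π + ez S v ρ)), ez_coe]
    show eO (π : ZI) * v π + ∑ ρ : S, s (ρ : ZI) (π : ZI) * (v π + v ρ) = _
    congr 1
    exact sum_congr rfl fun ρ _ => by rw [ez_coe]
  have hinj : Function.Injective A := by
    rw [← LinearMap.ker_eq_bot, LinearMap.ker_eq_bot']
    intro v hv
    have h1 : ez S v = 0 := h _ ⟨fun π hπ => ez_out S v π hπ, fun π hπ => by
      have h2 := hrow v ⟨π, hπ⟩
      rw [hv] at h2
      rw [zero_mul, add_zero]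
      exact h2.symm⟩
    funext π
    have h2 := congrFun h1 (π : ZI)
    rw [ez_coe] at h2
    exact h2
  obtain ⟨v, hv⟩ := (LinearMap.injective_iff_surjective.1 hinj) fun π : S =>
    gO (π : ZI) + (1 + y) * tO (π : ZI)
  refine ⟨ez S v, fun π hπ => ez_out S v π hπ, fun π hπ => ?_⟩
  have h2 := hrow v ⟨π, hπ⟩
  rw [hv] at h2
  show eO π * ez S v π + ∑ ρ ∈ S, s ρ π * (ez S v π + ez S v ρ) + 1 * (gO π + (1 + y) * tO π) = 0
  have h3 : gO π + (1 + y) * tO π = eO π * ez S v π + ∑ ρ ∈ S, s ρ π * (ez S v π + ez S v ρ) := h2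
  rw [one_mul, h3]
  exact add_self2 _

lemma cases2 (u : ZMod 2) : u = 0 ∨ u = 1 := by
  revert u
  decide

/-- if the first system is regular then exactly one of the others is -/
lemma one_of (h : Tv 1 0 x y S) : Tv a 1 x y S ↔ ¬ Tv (a + 1) 1 x y S := by
  have h0 := tv_odd.1 h
  obtain ⟨v, hv⟩ := exists_one h0
  -- all the solutions of the rows
  have hall : ∀ z : (ZI → ZMod 2) × ZMod 2, Rw y S z.1 z.2 → z = 0 ∨ z = (v, 1) := by
    rintro ⟨v', c⟩ hz
    rcases cases2 c with rfl | rfl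
    · left
      rw [h0 v' hz]
      rfl
    · right
      have h1 := rw_add hz hv
      have h2 : (1 : ZMod 2) + 1 = 0 := by decide
      rw [h2] at h1
      have h3 := h0 _ h1
      have h4 : v' = v := by
        funext π
        have h5 := congrFun h3 π
        rw [Pi.add_apply] at h5
        exact CharTwo.add_eq_zero.1 h5
      rw [h4]
  have key : ∀ b : ZMod 2, Tv b 1 x y S ↔ b + Bd x S v ≠ 0 := by
    intro b
    constructor
    · intro h1 h2
      have h3 := h1 (v, 1) (mem_sol.2 ⟨hv, by rw [mul_one, one_mul]; exact h2⟩)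
      exact one_ne_zero (congrArg Prod.snd h3)
    · intro h1 z hz
      obtain ⟨h2, h3⟩ := mem_sol.1 hz
      rcases hall z h2 with h4 | h4
      · exact h4
      · exfalso
        rw [h4, mul_one, one_mul] at h3
        exact h1 h3
  rw [key, key]
  generalize Bd x S v = t
  revert a t
  decide

/-- if the first system is not regular then both of the others are or none of them is -/
lemma both_of (h : ¬ Tv 1 0 x y S) : Tv a 1 x y S ↔ Tv (a + 1) 1 x y S := by
  rw [tv_odd] at h
  push Not at h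
  obtain ⟨v₀, hv₀, hne⟩ := h
  have key : ∀ b : ZMod 2, Tv b 1 x y S → Tv (b + 1) 1 x y S := by
    intro b hb
    have h1 : Bd x S v₀ = 1 := by
      rcases cases2 (Bd x S v₀) with h2 | h2
      · exfalso
        have h3 := hb (v₀, 0) (mem_sol.2 ⟨hv₀, by rw [mul_zero, h2, mul_zero, add_zero]⟩)
        exact hne (congrArg Prod.fst h3)
      · exact h2
    rintro ⟨v, c⟩ hz
    obtain ⟨h2, h3⟩ := mem_sol.1 hz
    rcases cases2 c with rfl | rfl
    · exact hb (v, 0) (mem_sol.2 ⟨h2, by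
        rw [mul_zero] at h3 ⊢
        exact h3⟩)
    · exfalso
      have h4 := rw_add h2 hv₀
      rw [add_zero] at h4
      have h5 : b * 1 + 1 * Bd x S (v + v₀) = 0 := by
        rw [bd_add, h1]
        rw [mul_one, one_mul] at h3
        linear_combination h3
      have h6 := hb (v + v₀, 1) (mem_sol.2 ⟨h4, h5⟩)
      exact one_ne_zero (congrArg Prod.snd h6)
  refine ⟨key a, fun h1 => ?_⟩
  have h2 := key _ h1
  have h3 : a + 1 + 1 = a := by rw [add_assoc]; show a + (1 + 1) = a; rw [show (1 : ZMod 2) + 1 = 0 from by decide, add_zero]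
  rwa [h3] at h2

end lin

/-! ### The third system -/

/-- the third system -/
def Zk (D : ZI) (k : ℕ) : Prop :=
  Cor (fun l => aa l.2.1 l.2.2.1 + 1) (fun _ => 1) (fun l => l.2.1) (fun l => l.2.2.1) (PD D) k

/-- **The indicator functions.** -/
lemma ind_both {D : ZI} (hD : Ad D) : (if Ck D 0 ∧ Ek D 0 then (1 : ℝ) else 0) =
    ((if Ck D 0 then 1 else 0) + (if Ek D 0 then 1 else 0) - (if Zk D 0 then 1 else 0)) / 2 := by
  set l : Lb := ∑ π ∈ PD D, fc π with hl
  have h1 : Ck D 0 ↔ Tv 1 0 l.2.1 l.2.2.1 (PD D) := by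
    rw [ck_pd hD]
    unfold OddC Cor
    rw [card_one_iff]
    exact ⟨tv_odd_indep, tv_odd_indep⟩
  have h2 : Ek D 0 ↔ Tv (aa l.2.1 l.2.2.1) 1 l.2.1 l.2.2.1 (PD D) := by
    rw [ek_pd hD]
    unfold EvenC Cor
    rw [card_one_iff]
  have h3 : Zk D 0 ↔ Tv (aa l.2.1 l.2.2.1 + 1) 1 l.2.1 l.2.2.1 (PD D) := by
    unfold Zk Cor
    rw [card_one_iff]
  by_cases c1 : Ck D 0
  · have h4 := one_of (a := aa l.2.1 l.2.2.1) (h1.1 c1)
    rw [← h2, ← h3] at h4
    by_cases c2 : Ek D 0
    · rw [if_pos ⟨c1, c2⟩, if_pos c1, if_pos c2, if_neg (h4.1 c2)]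
      norm_num
    · have c3 : Zk D 0 := by
        by_contra h5
        exact c2 (h4.2 h5)
      rw [if_neg fun h => c2 h.2, if_pos c1, if_neg c2, if_pos c3]
      norm_num
  · have h4 := both_of (a := aa l.2.1 l.2.2.1) (fun h => c1 (h1.2 h))
    rw [← h2, ← h3] at h4
    rw [if_neg fun h => c1 h.1, if_neg c1]
    by_cases c2 : Ek D 0
    · rw [if_pos c2, if_pos (h4.1 c2)]
      norm_num
    · rw [if_neg c2, if_neg fun h => c2 (h4.2 h)]
      norm_num

end Pool.Agent.H848.FL
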