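import Pool.Agent.H848.FL.Bth

/-!
# Project FL: the density of the elements with both coranks zero
-/

set_option autoImplicit false
set_option linter.unusedVariables false
set_option linter.unusedSectionVars false

open scoped Classical

namespace Pool.Agent.H848.FL

open Finset Filter Topology
open Pool.Agent.H519.Q7
open Pool.Agent.H848.BKD
open Pool.Agent.H848.FL.Loc
open Pool.Agent.NH57.BL (SolS c2)
open Pool.Agent.NH57.BH (aa)

/-- a kind of systems -/
def Kx (C : ZI → ℕ → Prop) : Prop := ∃ a b x y : Lb → ZMod 2, (∀ l, a l ≠ 0 ∨ b l ≠ 0) ∧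
    ∀ D, Ad D → ∀ k, (C D k ↔ Cor a b x y (PD D) k)

lemma kx_c : Kx Ck := kd_cor (Kd.odd rfl)

lemma kx_e : Kx Ek := kd_cor (Kd.even rfl)

lemma kx_z : Kx Zk := ⟨_, _, _, _, fun l => Or.inr one_ne_zero, fun D hD k => Iff.rfl⟩

/-- **The joint law**, any kinds. -/
theorem jointX {n : ℕ} {d : Fin n → ZI} (h : Cl d) (C : Finset (Fin n) → ZI → ℕ → Prop)
    (hC : ∀ T, Kx (C T)) (k : Finset (Fin n) → ℕ) :
    Dn (∏ i, d i) (fun D => ∀ T, Twk (C T) D d T (k T)) (∏ T, law c2 (k T)) := by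
  choose a b hab ha hb using exists_dec h.ad
  choose A B X Y hAB hAC using hC
  have hm := (prod_cl h.ad univ).1
  have hm0 := prim_ne_zero hm
  have h1 := lim (Finset (Fin n)) A B X Y hAB (fun T => PD (a T)) (PD (∏ i, d i))
    (fun u hu => ((mem_PD hm0).1 hu).1) (fun T => by
      apply PD_subset hm0
      refine dvd_trans ?_ (prod_dvd d T)
      rw [hab T]
      exact dvd_mul_right _ _) (inj_W h hab ha) (fun T => by
      have h2 := Pool.Agent.H519.Q7.fc_prod (S := PD (a T)) fun π hπ =>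
        ((mem_PD (Ad.ps (ha T)).ne).1 hπ).1.prm
      have h3 : tO (∏ π ∈ PD (a T), π) = ∑ u ∈ PD (a T), tO u := by
        have h4 := congrArg Prod.fst h2
        rw [Prod.fst_sum] at h4
        exact h4
      rw [← h3, (Ad.ps (ha T)).prod]
      exact Ad.t (ha T)) k
  unfold Dn
  refine h1.congr fun N => ?_
  have h2 := cnt_SS hm (P := fun D => ∀ T, Twk (C T) D d T (k T)) (R := fun S => ∀ T,
    Cor (A T) (B T) (X T) (Y T) (S ∪ PD (a T)) (k T)) (fun D hD hc => by
      refine forall_congr' fun T => ?_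
      have hca : IsCoprime D (a T) := by
        refine hc.of_isCoprime_of_dvd_right ((dvd_mul_right (a T) (b T ^ 2)).trans ?_)
        rw [← hab T]
        exact prod_dvd d T
      obtain ⟨hE, hpd⟩ := ad_mul hD (ha T) hca
      rw [twk_iff h.ad (hab T) (ha T) (hb T) hD hc, hAC T _ hE, hpd]) N
  rw [cnt_true hm, h2]
  exact congrArg (fun z : ℝ => z / _) (card_inst _ _ _ _)

/-- the three kinds -/
def C3 (j : Fin 3) : ZI → ℕ → Prop := match j with
  | 0 => Ck
  | 1 => Ek
  | 2 => Zk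

lemma kx_C3 (j : Fin 3) : Kx (C3 j) := by
  fin_cases j
  · exact kx_c
  · exact kx_e
  · exact kx_z

/-- the coefficients -/
noncomputable def e3 (j : Fin 3) : ℝ := match j with
  | 0 => 1 / 2
  | 1 => 1 / 2
  | 2 => -(1 / 2)

lemma sum_e3 (t : ℝ) : ∑ j : Fin 3, e3 j * t = t / 2 := by
  rw [Fin.sum_univ_three]
  show 1 / 2 * t + 1 / 2 * t + -(1 / 2) * t = t / 2
  ring

/-- both systems are regular -/
def Bk (D : ZI) (_k : ℕ) : Prop := Ck D 0 ∧ Ek D 0

lemma ind_e3 {D : ZI} (hD : Ad D) : (if Bk D 0 then (1 : ℝ) else 0) =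
    ∑ j : Fin 3, e3 j * (if C3 j D 0 then 1 else 0) := by
  have e0 : (if Bk D 0 then (1 : ℝ) else 0) = if Ck D 0 ∧ Ek D 0 then 1 else 0 :=
    if_congr Iff.rfl rfl rfl
  rw [e0, ind_both hD, Fin.sum_univ_three]
  show _ = 1 / 2 * (if Ck D 0 then 1 else 0) +
    1 / 2 * (if Ek D 0 then 1 else 0) + -(1 / 2) * (if Zk D 0 then 1 else 0)
  ring

lemma cnt_sum (m : ZI) (P : ZI → Prop) (X : ℕ) : (cnt m P X : ℝ) =
    ∑ D ∈ (ZB X).filter (fun D => Ad D ∧ IsCoprime D m), if P D then (1 : ℝ) else 0 := by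
  rw [cnt_eq, ← sum_filter, sum_const, nsmul_eq_mul, mul_one, filter_filter]
  congr 2
  ext D
  simp only [mem_filter]
  tauto

lemma ind_all {I : Type} [Fintype I] (P : I → Prop) :
    (if ∀ i, P i then (1 : ℝ) else 0) = ∏ i, if P i then (1 : ℝ) else 0 := by
  by_cases h : ∀ i, P i
  · rw [if_pos h]
    exact (prod_eq_one fun i _ => if_pos (h i)).symm
  · rw [if_neg h]
    push Not at h
    obtain ⟨i, hi⟩ := h
    exact (prod_eq_zero (mem_univ i) (if_neg hi)).symm

/-- **The density of the elements such that both systems of all the twists are regular.** -/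
theorem both_law {n : ℕ} {d : Fin n → ZI} (h : Cl d) :
    Dn (∏ i, d i) (fun D => ∀ T, Twk Bk D d T 0) ((c2 / 2) ^ (2 ^ n)) := by
  choose a b hab ha hb using exists_dec h.ad
  have hca : ∀ {D : ZI}, IsCoprime D (∏ i, d i) → ∀ T, IsCoprime D (a T) := by
    intro D hc T
    refine hc.of_isCoprime_of_dvd_right ((dvd_mul_right (a T) (b T ^ 2)).trans ?_)
    rw [← hab T]
    exact prod_dvd d T
  have hj := fun f : Finset (Fin n) → Fin 3 => jointX h (fun T => C3 (f T)) (fun T => kx_C3 _)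
    fun _ => 0
  unfold Dn at hj ⊢
  have key : ∀ X : ℕ, (cnt (∏ i, d i) (fun D => ∀ T, Twk Bk D d T 0) X : ℝ) =
      ∑ f : Finset (Fin n) → Fin 3, (∏ T, e3 (f T)) *
        (cnt (∏ i, d i) (fun D => ∀ T, Twk (C3 (f T)) D d T 0) X : ℝ) := by
    intro X
    simp only [cnt_sum, mul_sum]
    rw [sum_comm]
    refine sum_congr rfl fun D hD => ?_
    obtain ⟨-, hAd, hc⟩ := mem_filter.1 hD
    have h1 : ∀ (C : ZI → ℕ → Prop) (T : Finset (Fin n)), Twk C D d T 0 ↔ C (D * a T) 0 :=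
      fun C T => twk_iff h.ad (hab T) (ha T) (hb T) hAd hc 0
    simp only [ind_all, h1]
    have h2 : ∀ T, (if Bk (D * a T) 0 then (1 : ℝ) else 0) =
        ∑ j : Fin 3, e3 j * (if C3 j (D * a T) 0 then 1 else 0) := fun T =>
      ind_e3 (ad_mul hAd (ha T) (hca hc T)).1
    simp only [h2]
    rw [Finset.prod_univ_sum]
    rw [Fintype.piFinset_univ]
    exact sum_congr rfl fun f _ => prod_mul_distrib
  have h3 : Tendsto (fun X : ℕ => ∑ f : Finset (Fin n) → Fin 3, (∏ T, e3 (f T)) *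
      ((cnt (∏ i, d i) (fun D => ∀ T, Twk (C3 (f T)) D d T 0) X : ℝ) /
        (cnt (∏ i, d i) (fun _ => True) X : ℝ))) atTop
      (nhds (∑ f : Finset (Fin n) → Fin 3, (∏ T, e3 (f T)) * ∏ _T : Finset (Fin n), law c2 0)) :=
    tendsto_finsetSum _ fun f _ => (hj f).const_mul _
  have h4 : ∑ f : Finset (Fin n) → Fin 3, (∏ T, e3 (f T)) * ∏ _T : Finset (Fin n), law c2 0 =
      (c2 / 2) ^ (2 ^ n) := by
    have h5 := Finset.prod_univ_sum (fun _ : Finset (Fin n) => (univ : Finset (Fin 3)))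
      (fun _ j => e3 j * c2)
    rw [Fintype.piFinset_univ] at h5
    simp only [sum_e3] at h5
    rw [prod_const, card_univ, Fintype.card_finset, Fintype.card_fin] at h5
    rw [h5, law_zero]
    exact sum_congr rfl fun f _ => prod_mul_distrib.symm
  rw [h4] at h3
  refine h3.congr fun X => ?_
  rw [key X, sum_div]
  exact sum_congr rfl fun f _ => (mul_div_assoc _ _ _).symm

end Pool.Agent.H848.FL
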