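import Pool.Agent.H848.FL.Tr
import Pool.Agent.H519.KW.Dn

/-!
# Project FL: the counting theorems
-/

set_option autoImplicit false
set_option linter.unusedVariables false
set_option linter.unusedSectionVars false

open scoped Classical

namespace Pool.Agent.H848.FL

open Finset Filter
open Pool.Agent.H519.Q7 (ZI PP PD SS Kc fc tO dO gO eO s ZB nrm mem_ZB mem_PD prim symP mem_QB
  PS_prod prim_prod fc_mul prim_mul prim_pow prim_ne_zero prim_one fc_one PD_subset PD_mul PD_one)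
open Pool.Agent.H848.FL.Loc (Cor Sol card_inst)
open Pool.Agent.H848.BKD (Ad Ck Ek)
open Pool.Agent.R384 (OO qs om s7)
open Pool.Agent.NH57.BL (c2)
open Pool.Agent.NH57.BH (aa)

lemma Ad.ps {D : ZI} (h : Ad D) : Pool.Agent.H519.Q7.PS D := (ad_iff.1 h).1

lemma Ad.t {D : ZI} (h : Ad D) : tO D = 0 := (ad_iff.1 h).2

/-- the elements `D` and the sets of primary primes -/
theorem count_t (X : ℕ) (W0 : Finset ZI) (hW0 : ∀ u ∈ W0, PP u) (Q : Finset ZI → Prop) :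
    ((ZB X).filter fun D => Ad D ∧ (∀ u ∈ W0, ¬ u ∣ D) ∧ Q (PD D)).card =
      ((SS X).filter fun S => Kc κt W0 S ∧ Q S).card := by
  refine card_bij' (fun D _ => PD D) (fun S _ => ∏ π ∈ S, π) ?_ ?_ ?_ ?_
  · intro D hD
    rw [mem_filter] at hD ⊢
    obtain ⟨hX, h1, h4, h5⟩ := hD
    have hps := Ad.ps h1
    have hpr : ∀ π ∈ PD D, PP π := fun π hπ => ((mem_PD hps.ne).1 hπ).1
    have hn : ∏ π ∈ PD D, nrm π ≤ X := by
      rw [← Pool.Agent.H519.Q7.nrm_prod, hps.prod]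
      exact mem_ZB.1 hX
    refine ⟨?_, ⟨?_, ?_⟩, h5⟩
    · unfold Pool.Agent.H519.Q7.SS
      rw [mem_filter, mem_powerset]
      refine ⟨fun π hπ => ?_, hn⟩
      rw [mem_QB]
      exact ⟨(Pool.Agent.H519.Q7.norm_le_of_dvd hps.ne ((mem_PD hps.ne).1 hπ).2).trans
        (mem_ZB.1 hX), hpr π hπ⟩
    · unfold κt
      rw [← Pool.Agent.H519.Q7.fc_prod fun π hπ => (hpr π hπ).prm, hps.prod]
      exact Ad.t h1
    · rw [disjoint_left]
      intro u hu hu'
      exact h4 u hu ((mem_PD hps.ne).1 hu').2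
  · intro S hS
    rw [mem_filter] at hS ⊢
    obtain ⟨hX, ⟨h1, h2⟩, h3⟩ := hS
    unfold Pool.Agent.H519.Q7.SS at hX
    rw [mem_filter, mem_powerset] at hX
    have hpr : ∀ π ∈ S, PP π := fun π hπ => (mem_QB.1 (hX.1 hπ)).2
    obtain ⟨hps, hpd⟩ := PS_prod hpr
    have h8 : tO (∏ π ∈ S, π) = 0 := by
      have := Pool.Agent.H519.Q7.fc_prod fun π hπ => (hpr π hπ).prm
      unfold κt at h1
      rw [← this] at h1
      exact h1
    refine ⟨?_, ad_iff.2 ⟨hps, h8⟩, ?_, ?_⟩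
    · rw [mem_ZB, Pool.Agent.H519.Q7.nrm_prod]; exact hX.2
    · intro u hu hd
      have : u ∈ S := by
        rw [← hpd, mem_PD hps.ne]
        exact ⟨hW0 u hu, hd⟩
      exact (disjoint_left.1 h2) hu this
    · rw [hpd]; exact h3
  · intro D hD
    rw [mem_filter] at hD
    exact (Ad.ps hD.2.1).prod
  · intro S hS
    rw [mem_filter] at hS
    unfold Pool.Agent.H519.Q7.SS at hS
    rw [mem_filter, mem_powerset] at hS
    exact (PS_prod fun π hπ => (mem_QB.1 (hS.1.1 hπ)).2).2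

/-- the number of the `D` of norm at most `X` prime to `m` -/
noncomputable def cnt (m : ZI) (P : ZI → Prop) (X : ℕ) : ℕ :=
  {D : ZI | nrm D ≤ X ∧ Ad D ∧ IsCoprime D m ∧ P D}.ncard

/-- the density -/
def Dn (m : ZI) (P : ZI → Prop) (y : ℝ) : Prop :=
  Tendsto (fun X : ℕ => (cnt m P X : ℝ) / (cnt m (fun _ => True) X : ℝ)) atTop (nhds y)

lemma cnt_eq (m : ZI) (P : ZI → Prop) (X : ℕ) :
    cnt m P X = ((ZB X).filter fun D => Ad D ∧ IsCoprime D m ∧ P D).card := by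
  unfold cnt
  rw [← Set.ncard_coe_finset]
  congr 1
  ext D
  rw [Set.mem_ofPred_eq, Finset.mem_coe, mem_filter, mem_ZB]

theorem cnt_SS {m : ZI} (hm : prim m) {P : ZI → Prop} {R : Finset ZI → Prop}
    (hPR : ∀ D, Ad D → IsCoprime D m → (P D ↔ R (PD D))) (X : ℕ) :
    cnt m P X = ((SS X).filter fun S => Kc κt (PD m) S ∧ R S).card := by
  have hm0 := prim_ne_zero hm
  rw [← count_t X (PD m) (fun u hu => ((mem_PD hm0).1 hu).1) R, cnt_eq]
  congr 1
  apply filter_congr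
  intro D _
  constructor
  · rintro ⟨h1, h2, h3⟩
    exact ⟨h1, (Pool.Agent.H519.KW.Dn.cop_iff hm).1 h2, (hPR D h1 h2).1 h3⟩
  · rintro ⟨h1, h2, h3⟩
    have h4 := (Pool.Agent.H519.KW.Dn.cop_iff hm).2 h2
    exact ⟨h1, h4, (hPR D h1 h4).2 h3⟩

theorem cnt_true {m : ZI} (hm : prim m) (X : ℕ) :
    cnt m (fun _ => True) X = ((SS X).filter (Kc κt (PD m))).card := by
  rw [cnt_SS hm (R := fun _ => True) (fun _ _ _ => Iff.rfl) X]
  simp only [and_true]

/-! ### the twists -/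

/-- the product of the `d i`, `i ∈ T`, is a square only for the empty `T` -/
def Ind {n : ℕ} (d : Fin n → ZI) : Prop := ∀ T : Finset (Fin n), T.Nonempty → ¬ IsSquare (∏ i ∈ T, d i)

/-- the twists -/
structure Cl {n : ℕ} (d : Fin n → ZI) : Prop where
  ad : ∀ i, Ad (d i)
  ind : Ind d

lemma fc_sq (b : ZI) (h : prim b) : fc (b ^ 2) = 0 := by
  rw [pow_two, fc_mul h h]
  generalize fc b = x
  revert x
  decide

lemma prod_cl {n : ℕ} {d : Fin n → ZI} (hd : ∀ i, Ad (d i)) (T : Finset (Fin n)) :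
    prim (∏ i ∈ T, d i) ∧ tO (∏ i ∈ T, d i) = 0 := by
  induction T using Finset.induction_on with
  | empty =>
    rw [Finset.prod_empty]
    refine ⟨prim_one, ?_⟩
    have h := congrArg Prod.fst fc_one
    exact h
  | insert a T ha ih =>
    rw [Finset.prod_insert ha]
    refine ⟨prim_mul (Ad.ps (hd a)).prm ih.1, ?_⟩
    have h := congrArg Prod.fst (fc_mul (Ad.ps (hd a)).prm ih.1)
    have h2 : tO (d a * ∏ i ∈ T, d i) = tO (d a) + tO (∏ i ∈ T, d i) := h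
    rw [h2, Ad.t (hd a), ih.2, add_zero]

lemma exists_dec {n : ℕ} {d : Fin n → ZI} (h : ∀ i, Ad (d i)) (T : Finset (Fin n)) :
    ∃ a b : ZI, ∏ i ∈ T, d i = a * b ^ 2 ∧ Ad a ∧ b ≠ 0 := by
  obtain ⟨h1, h2⟩ := prod_cl h T
  obtain ⟨a, b, h3, h4, h5⟩ := Pool.Agent.H519.Q7.Low.decomp h1
  refine ⟨a, b, h3, ad_iff.2 ⟨h4, ?_⟩, prim_ne_zero h5⟩
  have h6 := congrArg Prod.fst (fc_mul h4.prm (prim_pow h5 2))
  rw [← h3, fc_sq b h5, add_zero] at h6
  have h7 : tO (∏ i ∈ T, d i) = tO a := h6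
  rw [← h7, h2]

lemma prod_dvd {n : ℕ} (d : Fin n → ZI) (T : Finset (Fin n)) :
    (∏ i ∈ T, d i) ∣ ∏ i, d i :=
  Finset.prod_dvd_prod_of_subset T Finset.univ d (Finset.subset_univ T)

/-- the corank of the twist by the product over `T` -/
def Twk (C : ZI → ℕ → Prop) (D : ZI) {n : ℕ} (d : Fin n → ZI) (T : Finset (Fin n)) (k : ℕ) : Prop :=
  ∃ M z : ZI, z ≠ 0 ∧ Ad M ∧ C M k ∧ D * ∏ i ∈ T, d i = M * z ^ 2

lemma ad_mul {D a : ZI} (hD : Ad D) (ha : Ad a) (hc : IsCoprime D a) :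
    Ad (D * a) ∧ PD (D * a) = PD D ∪ PD a := by
  refine ⟨ad_iff.2 ⟨?_, ?_⟩, PD_mul (Ad.ps hD).ne (Ad.ps ha).ne⟩
  · rw [Pool.Agent.H519.Q7.PS.mul_iff (Ad.ps hD).prm (Ad.ps ha).prm]
    exact ⟨Ad.ps hD, Ad.ps ha, hc⟩
  · have h := congrArg Prod.fst (fc_mul (Ad.ps hD).prm (Ad.ps ha).prm)
    have h2 : tO (D * a) = tO D + tO a := h
    rw [h2, Ad.t hD, Ad.t ha, add_zero]

theorem twk_iff {n : ℕ} {d : Fin n → ZI} (h : ∀ i, Ad (d i)) {T : Finset (Fin n)} {a b : ZI}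
    (hab : ∏ i ∈ T, d i = a * b ^ 2) (ha : Ad a) (hb : b ≠ 0) {C : ZI → ℕ → Prop} {D : ZI}
    (hD : Ad D) (hc : IsCoprime D (∏ i, d i)) (k : ℕ) : Twk C D d T k ↔ C (D * a) k := by
  have hca : IsCoprime D a := by
    refine hc.of_isCoprime_of_dvd_right ((dvd_mul_right a (b ^ 2)).trans ?_)
    rw [← hab]
    exact prod_dvd d T
  obtain ⟨hE, -⟩ := ad_mul hD ha hca
  have he : D * ∏ i ∈ T, d i = (D * a) * b ^ 2 := by rw [hab]; ring
  constructor
  · rintro ⟨M, z, hz, hM, hC, e⟩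
    rw [he] at e
    have h1 : M = D * a := Pool.Agent.H519.KW.Dn.eq_of_sq (Ad.ps hM) (Ad.ps hE) hz e.symm
    rw [← h1]
    exact hC
  · intro hC
    exact ⟨D * a, b, hb, hE, hC, he⟩

lemma inj_W {n : ℕ} {d : Fin n → ZI} (h : Cl d) {a b : Finset (Fin n) → ZI}
    (hab : ∀ T, ∏ i ∈ T, d i = a T * b T ^ 2) (ha : ∀ T, Ad (a T)) :
    Function.Injective fun T => PD (a T) := by
  intro T T' hTT
  have hTT' : PD (a T) = PD (a T') := hTT
  have haa : a T = a T' := by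
    rw [← (Ad.ps (ha T)).prod, hTT', (Ad.ps (ha T')).prod]
  by_contra hne
  have hU : ((T \ T') ∪ (T' \ T)).Nonempty := by
    rw [Finset.nonempty_iff_ne_empty]
    intro h1
    rw [Finset.union_eq_empty, Finset.sdiff_eq_empty_iff_subset,
      Finset.sdiff_eq_empty_iff_subset] at h1
    exact hne (h1.1.antisymm h1.2)
  apply h.ind _ hU
  have hdisj : Disjoint (T \ T') (T' \ T) := disjoint_sdiff_sdiff
  rw [Finset.prod_union hdisj]
  have hI : ∏ i ∈ T ∩ T', d i ≠ 0 := prim_ne_zero (prod_cl h.ad (T ∩ T')).1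
  refine Pool.Agent.H519.KW.Dn.isSquare_of_mul (z := ∏ i ∈ T ∩ T', d i) (w := a T * b T * b T') hI ?_
  have e1 := Finset.prod_inter_mul_prod_sdiff T T' d
  have e2 := Finset.prod_inter_mul_prod_sdiff T' T d
  rw [Finset.inter_comm] at e2
  have e3 := hab T
  have e4 := hab T'
  rw [← e1] at e3
  rw [← e2, ← haa] at e4
  calc _ = ((∏ i ∈ T ∩ T', d i) * ∏ i ∈ T \ T', d i) *
        ((∏ i ∈ T ∩ T', d i) * ∏ i ∈ T' \ T, d i) := by ring
    _ = _ := by rw [e3, e4]; ring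

/-- the two kinds of systems -/
inductive Kd (C : ZI → ℕ → Prop) : Prop
  | odd : C = Ck → Kd C
  | even : C = Ek → Kd C

lemma kd_cor {C : ZI → ℕ → Prop} (h : Kd C) :
    ∃ a b x y : Pool.Agent.H519.Q7.Lb → ZMod 2, (∀ l, a l ≠ 0 ∨ b l ≠ 0) ∧
    ∀ D, Ad D → ∀ k, (C D k ↔ Cor a b x y (PD D) k) := by
  rcases h with h | h
  · exact ⟨_, _, _, _, fun l => Or.inl one_ne_zero, fun D hD k => by rw [h]; exact ck_pd hD k⟩
  · exact ⟨_, _, _, _, fun l => Or.inr one_ne_zero, fun D hD k => by rw [h]; exact ek_pd hD k⟩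

/-- **The joint law**: the coranks of the twists are independent. -/
theorem joint {n : ℕ} {d : Fin n → ZI} (h : Cl d) (C : Finset (Fin n) → ZI → ℕ → Prop)
    (hC : ∀ T, Kd (C T)) (k : Finset (Fin n) → ℕ) :
    Dn (∏ i, d i) (fun D => ∀ T, Twk (C T) D d T (k T)) (∏ T, law c2 (k T)) := by
  choose a b hab ha hb using exists_dec h.ad
  choose A B X Y hAB hAC using fun T => kd_cor (hC T)
  have hm := (prod_cl h.ad univ).1
  have hm0 := prim_ne_zero hm
  have h1 := lim (Finset (Fin n)) A B X Y hAB (fun T => PD (a T)) (PD (∏ i, d i))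
    (fun u hu => ((mem_PD hm0).1 hu).1) (fun T => by
      apply PD_subset hm0
      refine dvd_trans ?_ (prod_dvd d T)
      rw [hab T]
      exact dvd_mul_right _ _) (inj_W h hab ha) (fun T => by
      have h2 := Pool.Agent.H519.Q7.fc_prod (S := PD (a T)) fun π hπ =>
        ((mem_PD (Ad.ps (ha T)).ne).1 hπ).1.prm
      have h3 : tO (∏ π ∈ PD (a T), π) = ∑ u ∈ PD (a T), tO u := by
        have h4 := congrArg Prod.fst h2
        rw [Prod.fst_sum] at h4
        exact h4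
      rw [← h3, (Ad.ps (ha T)).prod]
      exact Ad.t (ha T)) k
  unfold Dn
  refine h1.congr fun N => ?_
  have h2 := cnt_SS hm (P := fun D => ∀ T, Twk (C T) D d T (k T)) (R := fun S => ∀ T,
    Cor (A T) (B T) (X T) (Y T) (S ∪ PD (a T)) (k T)) (fun D hD hc => by
      refine forall_congr' fun T => ?_
      have hca : IsCoprime D (a T) := by
        refine hc.of_isCoprime_of_dvd_right ((dvd_mul_right (a T) (b T ^ 2)).trans ?_)
        rw [← hab T]
        exact prod_dvd d T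
      obtain ⟨hE, hpd⟩ := ad_mul hD (ha T) hca
      rw [twk_iff h.ad (hab T) (ha T) (hb T) hD hc, hAC T _ hE, hpd]) N
  rw [cnt_true hm, h2]
  exact congrArg (fun z : ℝ => z / _) (card_inst _ _ _ _)

/-! ### finite unions -/

lemma cnt_union {m : ZI} {J : Type} (s : Finset J) (P : J → ZI → Prop)
    (hdis : ∀ j ∈ s, ∀ j' ∈ s, j ≠ j' → ∀ D, Ad D → IsCoprime D m → P j D → ¬ P j' D) (X : ℕ) :
    cnt m (fun D => ∃ j ∈ s, P j D) X = ∑ j ∈ s, cnt m (P j) X := by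
  simp only [cnt_eq]
  rw [← card_biUnion]
  · congr 1
    ext D
    simp only [mem_filter, mem_biUnion]
    constructor
    · rintro ⟨h1, h2, h3, j, hj, h4⟩
      exact ⟨j, hj, h1, h2, h3, h4⟩
    · rintro ⟨j, hj, h1, h2, h3, h4⟩
      exact ⟨h1, h2, h3, j, hj, h4⟩
  · intro j hj j' hj' hne
    show Disjoint _ _
    rw [disjoint_left]
    intro D h h'
    obtain ⟨-, h2, h3, h4⟩ := mem_filter.1 h
    obtain ⟨-, -, -, h5⟩ := mem_filter.1 h'
    exact hdis j hj j' hj' hne D h2 h3 h4 h5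

theorem dn_union {m : ZI} {J : Type} (s : Finset J) (P : J → ZI → Prop) (y : J → ℝ)
    (hdis : ∀ j ∈ s, ∀ j' ∈ s, j ≠ j' → ∀ D, Ad D → IsCoprime D m → P j D → ¬ P j' D)
    (h : ∀ j ∈ s, Dn m (P j) (y j)) : Dn m (fun D => ∃ j ∈ s, P j D) (∑ j ∈ s, y j) := by
  have h1 : Tendsto (fun X : ℕ => ∑ j ∈ s, (cnt m (P j) X : ℝ) / (cnt m (fun _ => True) X : ℝ)) atTop
      (nhds (∑ j ∈ s, y j)) := tendsto_finsetSum _ fun j hj => h j hj
  unfold Dn
  refine h1.congr fun X => ?_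
  rw [cnt_union s P hdis X, ← sum_div]
  push_cast
  rfl

lemma dn_congr {m : ZI} {P Q : ZI → Prop} {y : ℝ} (h : Dn m P y)
    (hPQ : ∀ D, Ad D → IsCoprime D m → (P D ↔ Q D)) : Dn m Q y := by
  have h1 : ∀ X, cnt m P X = cnt m Q X := by
    intro X
    rw [cnt_eq, cnt_eq]
    congr 1
    apply filter_congr
    intro D _
    constructor
    · rintro ⟨h1, h2, h3⟩
      exact ⟨h1, h2, (hPQ D h1 h2).1 h3⟩
    · rintro ⟨h1, h2, h3⟩
      exact ⟨h1, h2, (hPQ D h1 h2).2 h3⟩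
  unfold Dn at h ⊢
  simpa only [h1] using h

lemma kd_uni {C : ZI → ℕ → Prop} (h : Kd C) {D : ZI} (hD : Ad D) {k k' : ℕ} (h1 : C D k)
    (h2 : C D k') : k = k' := by
  rcases h with h | h
  · rw [h] at h1 h2
    obtain ⟨k0, -, hk⟩ := Pool.Agent.H848.BKD.ck_unique hD
    rw [hk k h1, hk k' h2]
  · rw [h] at h1 h2
    obtain ⟨k0, -, hk⟩ := Pool.Agent.H848.BKD.ek_unique hD
    rw [hk k h1, hk k' h2]

lemma twk_uni {n : ℕ} {d : Fin n → ZI} (h : Cl d) {C : ZI → ℕ → Prop} (hC : Kd C) {D : ZI}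
    (hD : Ad D) (hc : IsCoprime D (∏ i, d i)) {T : Finset (Fin n)} {k k' : ℕ}
    (h1 : Twk C D d T k) (h2 : Twk C D d T k') : k = k' := by
  obtain ⟨a, b, hab, ha, hb⟩ := exists_dec h.ad T
  have hca : IsCoprime D a := by
    refine hc.of_isCoprime_of_dvd_right ((dvd_mul_right a (b ^ 2)).trans ?_)
    rw [← hab]
    exact prod_dvd d T
  rw [twk_iff h.ad hab ha hb hD hc] at h1 h2
  exact kd_uni hC (ad_mul hD ha hca).1 h1 h2

/-- the distribution of the sum of the coranks -/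
theorem sums {n : ℕ} {d : Fin n → ZI} (h : Cl d) {C : ZI → ℕ → Prop} (hC : Kd C) (m : ℕ) :
    Dn (∏ i, d i) (fun D => ∃ r : Finset (Fin n) → ℕ, (∀ T, Twk C D d T (r T)) ∧ ∑ T, r T = m)
      (∑ r ∈ Finset.piAntidiag (univ : Finset (Finset (Fin n))) m, ∏ T, law c2 (r T)) := by
  have h1 := dn_union (m := ∏ i, d i) (Finset.piAntidiag (univ : Finset (Finset (Fin n))) m)
    (fun r D => ∀ T, Twk C D d T (r T)) (fun r => ∏ T, law c2 (r T))
    (fun r _ r' _ hne D hD hc h1 h2 => hne (funext fun T => twk_uni h hC hD hc (h1 T) (h2 T)))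
    (fun r _ => joint h (fun _ => C) (fun _ => hC) r)
  refine dn_congr h1 fun D _ _ => ?_
  constructor
  · rintro ⟨r, hr, h2⟩
    rw [Finset.mem_piAntidiag] at hr
    exact ⟨r, h2, hr.1⟩
  · rintro ⟨r, h2, h3⟩
    refine ⟨r, ?_, h2⟩
    rw [Finset.mem_piAntidiag]
    exact ⟨h3, fun _ _ => mem_univ _⟩

/-- the law of one corank -/
theorem marg {C : ZI → ℕ → Prop} (hC : Kd C) (k : ℕ) : Dn 1 (fun D => C D k) (law c2 k) := by
  have hcl : Cl (Fin.elim0 : Fin 0 → ZI) := ⟨fun i => i.elim0, fun T hT => by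
    obtain ⟨i, _⟩ := hT
    exact i.elim0⟩
  have h1 := joint hcl (fun _ => C) (fun _ => hC) (fun _ => k)
  have e1 : ∏ i : Fin 0, (Fin.elim0 i : ZI) = 1 := rfl
  have e2 : ∏ T : Finset (Fin 0), law c2 k = law c2 k := by
    rw [prod_const, card_univ, Fintype.card_finset, Fintype.card_fin, pow_zero, pow_one]
  rw [e1, e2] at h1
  refine dn_congr h1 fun D hD hc => ?_
  have key : ∀ T : Finset (Fin 0), Twk C D (Fin.elim0 : Fin 0 → ZI) T k ↔ C D k := by
    intro T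
    have h2 := twk_iff (C := C) (D := D) (a := 1) (b := 1) (T := T) hcl.ad (by
      have : T = ∅ := Subsingleton.elim _ _
      rw [this, prod_empty]
      ring) (ad_iff.2 ⟨Pool.Agent.H519.Q7.PS_one, (congrArg Prod.fst fc_one : _)⟩) one_ne_zero hD
      (by rw [e1]; exact hc) k
    rw [h2, mul_one]
  constructor
  · intro h
    exact (key ∅).1 (h ∅)
  · intro h T
    exact (key T).2 h

end Pool.Agent.H848.FL
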