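import Pool.Agent.H848.FL.Loc

/-!
# Project FL: the densities
-/

set_option autoImplicit false
set_option linter.unusedVariables false

open scoped Classical

namespace Pool.Agent.H848.FL

open Finset Filter
open Pool.Agent.H519.Q7
open Pool.Agent.H848.FL.Loc (Cor Sol loc card_inst)
open Pool.Agent.NH57.BL (c2)

/-- the class of the elements congruent to `1` modulo `4` -/
def κt (l : Lb) : Prop := l.1 = 0

lemma c2_mem : 0 ≤ c2 ∧ c2 ≤ 1 := Pool.Agent.H519.Q7.Fin.c2_mem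

lemma c2_le_pk (k : ℕ) : c2 ≤ pk k := pk_ge rfl k

lemma pk_pos (k : ℕ) : 0 < pk k := by
  unfold pk
  refine prod_pos fun i _ => ?_
  have : (1 / 2 : ℝ) ^ (i + 1) ≤ 1 / 2 := by
    rw [pow_succ]
    have : (1 / 2 : ℝ) ^ i ≤ 1 := pow_le_one₀ (by norm_num) (by norm_num)
    nlinarith
  linarith

lemma gl_pos (k : ℕ) : 0 < gl k := lt_of_lt_of_le one_pos (gl_ge k)

lemma law_nonneg (k : ℕ) : 0 ≤ law c2 k :=
  div_nonneg c2_mem.1 (mul_nonneg (pk_pos k).le (gl_pos k).le)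

lemma law_le_one (k : ℕ) : law c2 k ≤ 1 := by
  unfold law
  rw [div_le_one (mul_pos (pk_pos k) (gl_pos k))]
  have h1 := c2_le_pk k
  have h2 := gl_ge k
  have h3 := pk_pos k
  nlinarith

lemma low_t (V : Finset ZI) (hV : ∀ u ∈ V, PP u) :
    ∃ (c : ℝ) (X₀ : ℕ), 0 < c ∧ ∀ X : ℕ, X₀ ≤ X → c * X ≤ (((SS X).filter (Kc κt V)).card : ℝ) := by
  obtain ⟨c, X₀, hc, h⟩ := Pool.Agent.H519.Q7.Low.low V hV
  refine ⟨c, X₀, hc, fun X hX => (h X hX).trans ?_⟩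
  have : ((SS X).filter (Kc κ₀ V)).card ≤ ((SS X).filter (Kc κt V)).card := by
    apply card_le_card
    intro S hS
    rw [mem_filter] at hS ⊢
    exact ⟨hS.1, hS.2.1.1, hS.2.2⟩
  exact_mod_cast this

/-- **The joint law of the coranks.** -/
theorem lim (I : Type) [Fintype I] (a b x y : I → Lb → ZMod 2)
    (hab : ∀ i l, a i l ≠ 0 ∨ b i l ≠ 0) (W : I → Finset ZI) (W₀ : Finset ZI)
    (hW₀ : ∀ u ∈ W₀, PP u) (hW : ∀ i, W i ⊆ W₀) (hinj : Function.Injective W)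
    (hκ : ∀ i, ∑ u ∈ W i, tO u = 0) (kk : I → ℕ) :
    Tendsto (fun X : ℕ => (((SS X).filter fun S => Kc κt W₀ S ∧
        ∀ i, Cor (a i) (b i) (x i) (y i) (S ∪ W i) (kk i)).card : ℝ) /
      (((SS X).filter (Kc κt W₀)).card : ℝ)) atTop (nhds (∏ i, law c2 (kk i))) := by
  have h0 : 0 ≤ ∏ i, law c2 (kk i) := prod_nonneg fun i _ => law_nonneg _
  have h1 : ∏ i, law c2 (kk i) ≤ 1 := prod_le_one (fun i _ => law_nonneg _) fun i _ => law_le_one _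
  have hB : ∀ ε : ℝ, 0 < ε → ∃ A R : ℕ, BX (NK κt W₀ A R W₀)
      (fun S => ∀ i, Cor (a i) (b i) (x i) (y i) (S ∪ W i) (kk i)) W₀ (∏ i, law c2 (kk i)) ε := by
    intro ε hε
    obtain ⟨A, R, h⟩ := loc symP I a b x y κt (fun _ h => h) W W₀ hab hW₀ hW hinj hκ kk ε hε
    exact ⟨A, R, Bx.bx Eq.eqd _ _ W₀ _ ε h0 hε.le hW₀
      (Bx.lab symP κt W₀ A R W₀ subset_rfl hW₀) h⟩
  have h := Asy.asy Bil.bil Key.key Cnt.cnt (Bad.bad symP Hal.hal) κt W₀ W₀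
    (fun S => ∀ i, Cor (a i) (b i) (x i) (y i) (S ∪ W i) (kk i)) (∏ i, law c2 (kk i))
    h0 h1 hW₀ (low_t W₀ hW₀) hB
  refine h.congr fun X => ?_
  rw [card_inst _ _ _ _]

end Pool.Agent.H848.FL
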