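import Pool.Agent.H848.FL.Mom
import Pool.Agent.H519.Q7.La

/-!
# Project FL: the joint law of the dimensions of the kernels (port of `NH57/BL/LXJ4.lean`)
-/

set_option autoImplicit false
set_option linter.unusedVariables false
set_option linter.unusedSectionVars false

open scoped Classical

namespace Pool.Agent.H848.FL

open Finset Pool.Agent.NH57.BJ Pool.Agent.NH57.BJ.LXJ4
open Pool.Agent.NH57.BL (prs ext c2 IndA S_LA1J Vc)

/-- the joint moments of the dimensions of the kernels -/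
theorem momJ (I : Type) [Fintype I] [Nonempty I] (M : ℕ) (δ : ℝ) (hδ : 0 < δ) : ∃ K V : ℕ,
    ∀ (a b : I → ZMod 2), (∀ i, a i ≠ 0 ∨ b i ≠ 0) →
    ∀ (U J : Type) [Fintype U] [Fintype J] [LinearOrder J] (L : Blk I U J), Hyp K V L →
    ∀ m : I → ℕ, (∀ i, m i ≤ M) →
    |(∑ α : prs J → ZMod 2, ∏ i, ∏ a' ∈ range (m i),
      ((2 : ℝ) ^ Module.finrank (ZMod 2) (Kr a b L (ext L.tJ α) i) - 2 ^ a')) /
        Fintype.card (prs J → ZMod 2) - 1| ≤ δ := by
  have hLA1 : S_LA1J := Pool.Agent.H519.Q7.La.la1j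
  have hLA2 : S_LXJ2 := t_LXJ2
  have hLA3 : S_LXJ3 := t_LXJ3
  obtain ⟨i0⟩ := (inferInstance : Nonempty I)
  choose K2 V2 h2 using fun m => hLA2 I m (δ / 2) (half_pos hδ)
  choose K3 V3 h3 using fun m => hLA3 hLA1 I m (δ / 2) (half_pos hδ)
  obtain ⟨P, hP⟩ : ∃ P : Finset (I → ℕ), P = Fintype.piFinset fun _ : I => range (M + 1) :=
    ⟨_, rfl⟩
  refine ⟨P.sup K2 + P.sup K3, P.sup V2 + P.sup V3 + 1, ?_⟩
  intro av bv hab U J _ _ _ L hyp m hm
  have hJ : ∃ k0 : J, True := by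
    have := hyp.many i0 i0
    have h4 : 0 < (univ.filter fun k => La L i0 k + La L i0 k + L.tJ k = 1).card := by
      omega
    obtain ⟨k0, _⟩ := Finset.card_pos.1 h4
    exact ⟨k0, trivial⟩
  obtain ⟨k0, -⟩ := hJ
  have hcardΩ : (Fintype.card (prs J → ZMod 2) : ℝ) = 2 ^ (prs J).card := by
    rw [Fintype.card_fun, ZMod.card, Fintype.card_coe]
    push_cast
    rfl
  have hmP : m ∈ P := by
    rw [hP, Fintype.mem_piFinset]
    intro i
    rw [Finset.mem_range]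
    have := hm i
    omega
  have hyp2 : Hyp (K2 m) (V2 m) L :=
    hyp_mono ((Finset.le_sup (f := K2) hmP).trans (by omega))
      ((Finset.le_sup (f := V2) hmP).trans (by omega)) hyp
  have hyp3 : Hyp (K3 m) (V3 m) L :=
    hyp_mono ((Finset.le_sup (f := K3) hmP).trans (by omega))
      ((Finset.le_sup (f := V3) hmP).trans (by omega)) hyp
  have hres2 := h2 m av bv hab U J L hyp2
  have hres3 := h3 m av bv hab U J L hyp3
  -- the tuples
  obtain ⟨Q, hQ⟩ : ∃ Q : (prs J → ZMod 2) → ((Σ i, Fin (m i)) → Vc U J) → Prop,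
    ∀ α x, Q α x ↔ ∀ a, x a ∈ Kr av bv L (ext L.tJ α) a.1 :=
    ⟨fun α x => ∀ a, x a ∈ Kr av bv L (ext L.tJ α) a.1, fun _ _ => Iff.rfl⟩
  have hcount : ∀ α : prs J → ZMod 2, ∏ i, ∏ a ∈ range (m i),
      ((2 : ℝ) ^ Module.finrank (ZMod 2) (Kr av bv L (ext L.tJ α) i) - 2 ^ a) =
      ((univ.filter fun x : (Σ i, Fin (m i)) → Vc U J =>
        (∀ i, IndA (fun a : Fin (m i) => (x ⟨i, a⟩).2.1)) ∧ Q α x).card : ℝ) := by
    intro α
    have e1 : ∀ i, ∏ a ∈ range (m i),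
      ((2 : ℝ) ^ Module.finrank (ZMod 2) (Kr av bv L (ext L.tJ α) i) - 2 ^ a) =
        (Nat.card {s : Fin (m i) → Kr av bv L (ext L.tJ α) i //
          LinearIndependent (ZMod 2) s} : ℝ) := fun i => (card_li (m i)).symm
    rw [Finset.prod_congr rfl fun i _ => e1 i, ← Nat.cast_prod, ← Nat.card_pi]
    congr 1
    rw [← Fintype.card_coe, ← Nat.card_eq_fintype_card]
    apply Nat.card_congr
    refine
      { toFun := fun s => ⟨fun a => ((s a.1).1 a.2).1, ?_⟩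
        invFun := fun x => fun i => ⟨fun a => ⟨x.1 ⟨i, a⟩, ?_⟩, ?_⟩
        left_inv := ?_
        right_inv := ?_ }
    · rw [Finset.mem_filter, hQ]
      refine ⟨Finset.mem_univ _, fun i => ?_, fun a => ?_⟩
      · exact (li_iff k0 (fun w e f h => (hyp.nd i w e f h).1) (s i).1).1 (s i).2
      · exact ((s a.1).1 a.2).2
    · have hx := (Finset.mem_filter.1 x.2).2.2
      rw [hQ] at hx
      exact hx ⟨i, a⟩
    · have hx := (Finset.mem_filter.1 x.2).2.1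
      exact (li_iff k0 (fun w e f h => (hyp.nd i w e f h).1) _).2 (hx i)
    · intro s; rfl
    · intro x; rfl
  rw [Finset.sum_congr rfl fun α _ => hcount α, ← Nat.cast_sum, hcardΩ]
  -- the pairs
  have hpairs : ∑ α : prs J → ZMod 2,
      (univ.filter fun x : (Σ i, Fin (m i)) → Vc U J =>
        (∀ i, IndA (fun a : Fin (m i) => (x ⟨i, a⟩).2.1)) ∧ Q α x).card =
      (univ.filter fun y : (prs J → ZMod 2) × ((Σ i, Fin (m i)) → Vc U J) =>
        (∀ i, IndA (fun a : Fin (m i) => (y.2 ⟨i, a⟩).2.1)) ∧ Q y.1 y.2).card := by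
    rw [Finset.card_filter, ← Finset.univ_product_univ, Finset.sum_product]
    apply Finset.sum_congr rfl
    intro α _
    rw [Finset.card_filter]
  rw [hpairs]
  have hsplit : (univ.filter fun y : (prs J → ZMod 2) × ((Σ i, Fin (m i)) → Vc U J) =>
        (∀ i, IndA (fun a : Fin (m i) => (y.2 ⟨i, a⟩).2.1)) ∧ Q y.1 y.2).card =
      (univ.filter fun y : (prs J → ZMod 2) × ((Σ i, Fin (m i)) → Vc U J) =>
        IndA (fun a => (y.2 a).2.1) ∧ Q y.1 y.2).card +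
      (univ.filter fun y : (prs J → ZMod 2) × ((Σ i, Fin (m i)) → Vc U J) =>
    (∀ i, IndA (fun p : Fin (m i) => (y.2 ⟨i, p⟩).2.1)) ∧ ¬ IndA (fun p => (y.2 p).2.1) ∧
    (∀ p, UR av bv L p.1 (y.2 p)) ∧
    ∀ p k, rowJ L (ext L.tJ y.1) p.1 (y.2 p) k = 0).card := by
    rw [← Finset.card_union_of_disjoint]
    · congr 1
      ext y
      rw [Finset.mem_union, Finset.mem_filter, Finset.mem_filter, Finset.mem_filter]
      constructor
      · rintro ⟨_, h5, h6⟩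
        by_cases h7 : IndA (fun a => (y.2 a).2.1)
        · exact Or.inl ⟨Finset.mem_univ _, h7, h6⟩
        · refine Or.inr ⟨Finset.mem_univ _, h5, h7, fun a => ?_, fun a k => ?_⟩
          · exact ur_of_mem y.1 ((hQ _ _).1 h6 a)
          · exact ((hQ _ _).1 h6 a).2.2.1 k
      · rintro (⟨_, h5, h6⟩ | ⟨_, h5, h6, h7, h8⟩)
        · exact ⟨Finset.mem_univ _, fun i => ind_sub (d := fun a => (y.2 a).2.1) h5 i, h6⟩
        · exact ⟨Finset.mem_univ _, h5, (hQ _ _).2 fun a => ⟨(h7 a).1, (h7 a).2.1,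
            fun k => h8 a k, (h7 a).2.2.1⟩⟩
    · rw [Finset.disjoint_left]
      intro y hy hy'
      rw [Finset.mem_filter] at hy hy'
      exact hy'.2.2.1 hy.2.1
  -- the jointly independent tuples
  obtain ⟨T, hT⟩ : ∃ T : Finset ((Σ i, Fin (m i)) → Vc U J),
    T = univ.filter fun x => IndA (fun a => (x a).2.1) ∧
      ∀ a, (∀ u, u ∉ L.W a.1 → (x a).1 u = 0) ∧
      (∀ u ∈ L.W a.1, rowU L a.1 (x a) u = 0) ∧ bor av bv L a.1 (x a) = 0 := ⟨_, rfl⟩
  have hTm : ∀ x, x ∈ T ↔ IndA (fun a => (x a).2.1) ∧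
      ∀ a, (∀ u, u ∉ L.W a.1 → (x a).1 u = 0) ∧
      (∀ u ∈ L.W a.1, rowU L a.1 (x a) u = 0) ∧ bor av bv L a.1 (x a) = 0 := by
    intro x
    rw [hT, Finset.mem_filter]
    exact ⟨fun h => h.2, fun h => ⟨Finset.mem_univ _, h⟩⟩
  have hN1 : (univ.filter fun y : (prs J → ZMod 2) × ((Σ i, Fin (m i)) → Vc U J) =>
        IndA (fun a => (y.2 a).2.1) ∧ Q y.1 y.2).card =
      ∑ x ∈ T, (univ.filter fun α : prs J → ZMod 2 =>
        ∀ a k, fJ L a.1 (x a) k +
          ∑ l, ext L.tJ α k l * ((x a).2.1 k + (x a).2.1 l) = 0).card := by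
    rw [Finset.card_filter, ← Finset.univ_product_univ, Finset.sum_product_right, hT,
      Finset.sum_filter]
    apply Finset.sum_congr rfl
    intro x _
    rw [Finset.card_filter]
    split_ifs with h5
    · apply Finset.sum_congr rfl
      intro α _
      congr 1
      rw [eq_iff_iff, hQ]
      constructor
      · rintro ⟨_, h7⟩ a k
        exact (h7 a).2.2.1 k
      · intro h7
        exact ⟨h5.1, fun a => ⟨(h5.2 a).1, (h5.2 a).2.1, fun k => h7 a k, (h5.2 a).2.2⟩⟩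
    · apply Finset.sum_eq_zero
      intro α _
      rw [if_neg]
      rintro ⟨h6, h7⟩
      rw [hQ] at h7
      exact h5 ⟨h6, fun a => ⟨(h7 a).1, (h7 a).2.1, (h7 a).2.2.2⟩⟩
  have hcardT : Fintype.card (Σ i, Fin (m i)) = ∑ i, m i := by
    rw [Fintype.card_sigma]
    exact Finset.sum_congr rfl fun i _ => Fintype.card_fin _
  have hmul : (∑ x ∈ T, (univ.filter fun α : prs J → ZMod 2 =>
        ∀ a k, fJ L a.1 (x a) k +
          ∑ l, ext L.tJ α k l * ((x a).2.1 k + (x a).2.1 l) = 0).card) *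
        2 ^ ((∑ i, m i) * (Fintype.card J - 1)) =
      (univ.filter fun z : (Σ i, Fin (m i)) → Vc U J =>
    IndA (fun p => (z p).2.1) ∧ (∀ p, UR av bv L p.1 (z p)) ∧
    ∀ p q, p ≠ q → bj L p.1 q.1 (z p) (z q) = 0).card *
        2 ^ ((prs J).card + (∑ i, m i).choose 2) := by
    obtain ⟨Pr, hPr⟩ : ∃ Pr : ((Σ i, Fin (m i)) → Vc U J) → Prop,
        ∀ x, Pr x ↔ ((∀ a, ∑ k, fJ L a.1 (x a) k +
            ∑ e ∈ prs J, L.tJ e.1 * L.tJ e.2 * ((x a).2.1 e.1 + (x a).2.1 e.2) = 0) ∧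
            (∀ a b, a ≠ b → bj L a.1 b.1 (x a) (x b) = 0)) :=
      ⟨_, fun _ => Iff.rfl⟩
    rw [Finset.sum_mul]
    have h5 : ∀ x ∈ T, (univ.filter fun α : prs J → ZMod 2 =>
        ∀ a k, fJ L a.1 (x a) k +
          ∑ l, ext L.tJ α k l * ((x a).2.1 k + (x a).2.1 l) = 0).card *
        2 ^ ((∑ i, m i) * (Fintype.card J - 1)) =
        if Pr x then 2 ^ ((prs J).card + (∑ i, m i).choose 2) else 0 := by
      intro x hx
      rw [hTm] at hx
      have hPr' := hPr x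
      simp only [bj_eq] at hPr'
      have := L1 hLA1 J (Σ i, Fin (m i)) L.tJ (fun a k => fJ L a.1 (x a) k)
        (fun a => (x a).2.1) hx.1 (Pr x) hPr'
      rw [hcardT] at this
      exact this
    rw [Finset.sum_congr rfl h5, ← Finset.sum_filter, Finset.sum_const, smul_eq_mul]
    congr 2
    rw [hT, Finset.filter_filter]
    apply Finset.filter_congr
    intro x _
    constructor
    · rintro ⟨⟨h6, h7⟩, h8'⟩
      obtain ⟨h8, h9⟩ := (hPr x).1 h8'
      exact ⟨h6, fun a => ⟨(h7 a).1, (h7 a).2.1, (h7 a).2.2, h8 a⟩, h9⟩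
    · rintro ⟨h6, h7, h8⟩
      exact ⟨⟨h6, fun a => ⟨(h7 a).1, (h7 a).2.1, (h7 a).2.2.1⟩⟩,
        (hPr x).2 ⟨fun a => (h7 a).2.2.2, h8⟩⟩
  rw [hsplit, hN1]
  obtain ⟨N1, hN1'⟩ : ∃ N1 : ℕ, N1 = ∑ x ∈ T, (univ.filter fun α : prs J → ZMod 2 =>
        ∀ a k, fJ L a.1 (x a) k +
          ∑ l, ext L.tJ α k l * ((x a).2.1 k + (x a).2.1 l) = 0).card := ⟨_, rfl⟩
  rw [← hN1'] at hmul ⊢
  obtain ⟨N2, hN2⟩ : ∃ N2 : ℕ, N2 =
      (univ.filter fun z : (Σ i, Fin (m i)) → Vc U J =>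
    IndA (fun p => (z p).2.1) ∧ (∀ p, UR av bv L p.1 (z p)) ∧
    ∀ p q, p ≠ q → bj L p.1 q.1 (z p) (z q) = 0).card := ⟨_, rfl⟩
  rw [← hN2] at hmul
  have hfin2 : |(N2 : ℝ) * 2 ^ (∑ i, m i).choose 2 /
      2 ^ ((∑ i, m i) * (Fintype.card J - 1)) - 1| ≤ δ / 2 := by
    rw [hN2]
    exact hres2
  obtain ⟨N3, hN3⟩ : ∃ N3 : ℕ, N3 = (univ.filter fun y : (prs J → ZMod 2) ×
        ((Σ i, Fin (m i)) → Vc U J) =>
    (∀ i, IndA (fun p : Fin (m i) => (y.2 ⟨i, p⟩).2.1)) ∧ ¬ IndA (fun p => (y.2 p).2.1) ∧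
    (∀ p, UR av bv L p.1 (y.2 p)) ∧
    ∀ p k, rowJ L (ext L.tJ y.1) p.1 (y.2 p) k = 0).card := ⟨_, rfl⟩
  rw [← hN3]
  have hfin3 : (N3 : ℝ) ≤ δ / 2 * 2 ^ (prs J).card := by
    rw [hN3]
    exact hres3
  obtain ⟨P', hP'⟩ : ∃ P : ℕ, P = (prs J).card := ⟨_, rfl⟩
  rw [← hP'] at hmul hfin3 ⊢
  have hval : (N1 : ℝ) / 2 ^ P' = (N2 : ℝ) * 2 ^ (∑ i, m i).choose 2 /
      2 ^ ((∑ i, m i) * (Fintype.card J - 1)) := by
    rw [div_eq_div_iff (by positivity) (by positivity)]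
    have h2 : (N1 : ℝ) * 2 ^ ((∑ i, m i) * (Fintype.card J - 1)) =
        (N2 : ℝ) * 2 ^ (P' + (∑ i, m i).choose 2) := by
      exact_mod_cast hmul
    rw [h2, pow_add]
    ring
  rw [← hval] at hfin2
  have hfin3' : (N3 : ℝ) / 2 ^ P' ≤ δ / 2 := by
    rw [div_le_iff₀ (by positivity)]
    exact hfin3
  have hfin30 : 0 ≤ (N3 : ℝ) / 2 ^ P' := by positivity
  push_cast
  rw [add_div]
  rw [abs_le] at hfin2 ⊢
  constructor
  · linarith [hfin2.1]
  · linarith [hfin2.2]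


/-- the joint law of the dimensions of the kernels -/
theorem lawJ (I : Type) [Fintype I] (kk : I → ℕ) (ε : ℝ) (hε : 0 < ε) : ∃ K V : ℕ,
    ∀ (a b : I → ZMod 2), (∀ i, a i ≠ 0 ∨ b i ≠ 0) →
    ∀ (U J : Type) [Fintype U] [Fintype J] [LinearOrder J] (L : Blk I U J), Hyp K V L →
    |((univ.filter fun α : prs J → ZMod 2 =>
        ∀ i, Module.finrank (ZMod 2) (Kr a b L (ext L.tJ α) i) = kk i).card : ℝ) /
      2 ^ (prs J).card - ∏ i, law c2 (kk i)| ≤ ε := by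
  by_cases hI : Nonempty I
  swap
  · refine ⟨0, 0, ?_⟩
    intro a b hab U J _ _ _ L hyp
    have h1 : (univ.filter fun α : prs J → ZMod 2 =>
        ∀ i, Module.finrank (ZMod 2) (Kr a b L (ext L.tJ α) i) = kk i) = univ := by
      apply Finset.filter_true_of_mem
      intro α _ i
      exact absurd ⟨i⟩ hI
    have h2 : (univ : Finset I) = ∅ := by
      rw [Finset.univ_eq_empty_iff]
      exact not_nonempty_iff.1 hI
    rw [h1, h2, prod_empty, Finset.card_univ, Fintype.card_fun, ZMod.card, Fintype.card_coe]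
    push_cast
    rw [div_self (by positivity), sub_self, abs_zero]
    exact hε.le
  obtain ⟨M, δ, hδ, hM⟩ := law_main c2 rfl I kk ε hε
  obtain ⟨K, V, hKV⟩ := momJ I M δ hδ
  refine ⟨K, V, ?_⟩
  intro a b hab U J _ _ _ L hyp
  have key := hM (prs J → ZMod 2)
    (fun α i => Module.finrank (ZMod 2) (Kr a b L (ext L.tJ α) i))
    (fun m hm => hKV a b hab U J L hyp m hm)
  have hcardΩ : (Fintype.card (prs J → ZMod 2) : ℝ) = 2 ^ (prs J).card := by
    rw [Fintype.card_fun, ZMod.card, Fintype.card_coe]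
    push_cast
    rfl
  rw [hcardΩ] at key
  have h1 : ((univ.filter fun α : prs J → ZMod 2 =>
      ∀ i, Module.finrank (ZMod 2) (Kr a b L (ext L.tJ α) i) = kk i).card : ℝ) =
      ∑ α : prs J → ZMod 2,
        if (∀ i, Module.finrank (ZMod 2) (Kr a b L (ext L.tJ α) i) = kk i) then (1 : ℝ) else 0 := by
    rw [Finset.card_filter]
    push_cast
    refine sum_congr rfl fun α _ => ?_
    by_cases h : ∀ i, Module.finrank (ZMod 2) (Kr a b L (ext L.tJ α) i) = kk i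
    · rw [if_pos h]
    · rw [if_neg h]
  rw [h1]
  exact key

end Pool.Agent.H848.FL
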