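import Pool.Agent.H848.FL.Lax
import Pool.Agent.H519.Q7.All

/-! Project FL: from the joint linear algebra to the local proportion (after `H519/Q7/Loc.lean`). -/

set_option autoImplicit false
set_option linter.unusedVariables false
set_option linter.unusedSectionVars false

open scoped Classical

namespace Pool.Agent.H848.FL.Loc

open Finset
open Pool.Agent.H519.Q7
open Pool.Agent.H519.Q7.Loc (sum_im two rec' ext_eq ne0 sum_symm dot_t card_im sum_w)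
open Pool.Agent.NH57.BL (prs c2 SolS ext Vc)
open Pool.Agent.NH57.BJ (Blk rowU rowJ fJ bor La Hyp)
open Pool.Agent.NH57.BJ.LXJ4 (Kr)

/-- the blocks -/
noncomputable def Lk {I ι : Type} (x y : I → ZMod 2) (W : I → Finset ZI) (S₀ W₀ : Finset ZI)
    (q : ι → ZI) : Blk I {u : ZI // u ∈ S₀ ∪ W₀} ι where
  W i := univ.filter fun u => (u : ZI) ∈ S₀ ∪ W i
  sU u := eO u
  tU u := tO u
  dU i u := dO u + (1 + x i) * tO u
  gU i u := gO u + (1 + y i) * tO u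
  sJ j := eO (q j)
  tJ j := tO (q j)
  dJ i j := dO (q j) + (1 + x i) * tO (q j)
  gJ i j := gO (q j) + (1 + y i) * tO (q j)
  A u v := s v u
  B u j := s (q j) u

lemma Lk_eq {I ι : Type} (x y : I → ZMod 2) (W : I → Finset ZI) (S₀ W₀ : Finset ZI) (p q : ι → ZI)
    (h : ∀ i, lb (S₀ ∪ W₀) (p i) = lb (S₀ ∪ W₀) (q i)) :
    Lk x y W S₀ W₀ p = Lk x y W S₀ W₀ q := by
  have h1 : ∀ i, fc (p i) = fc (q i) := fun i => congrArg Prod.snd (h i)
  have h2 : ∀ i (u : {u : ZI // u ∈ S₀ ∪ W₀}), s (p i) u = s (q i) u := fun i u =>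
    congrFun (congrArg Prod.fst (h i)) u
  have t1 : ∀ i, tO (p i) = tO (q i) := fun i => congrArg Prod.fst (h1 i)
  have t2 : ∀ i, dO (p i) = dO (q i) := fun i => congrArg (fun x : Lb => x.2.1) (h1 i)
  have t3 : ∀ i, gO (p i) = gO (q i) := fun i => congrArg (fun x : Lb => x.2.2.1) (h1 i)
  have t4 : ∀ i, eO (p i) = eO (q i) := fun i => congrArg (fun x : Lb => x.2.2.2) (h1 i)
  unfold Lk
  simp only [t1, t2, t3, t4, h2]

lemma sum_W {I ι : Type} (x y : I → ZMod 2) {W : I → Finset ZI} {S₀ W₀ : Finset ZI}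
    (hW : ∀ i, W i ⊆ W₀) (q : ι → ZI)
    (i : I) (F : ZI → ZMod 2) : ∑ u ∈ (Lk x y W S₀ W₀ q).W i, F u = ∑ u ∈ S₀ ∪ W i, F u := by
  have h1 : (Lk x y W S₀ W₀ q).W i =
      univ.filter fun u : {u : ZI // u ∈ S₀ ∪ W₀} => (u : ZI) ∈ S₀ ∪ W i := rfl
  rw [h1, sum_filter, Finset.sum_coe_sort (S₀ ∪ W₀) (fun u => if u ∈ S₀ ∪ W i then F u else 0),
    ← sum_filter, filter_mem_eq_inter, inter_eq_right.2 (union_subset_union_right (hW i))]

/-- the rows of the two systems -/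
lemma rows (hS : SymP) {I ι : Type} [Fintype ι] [LinearOrder ι] (x y : I → ZMod 2)
    {W : I → Finset ZI}
    {S₀ W₀ : Finset ZI} (hW : ∀ i, W i ⊆ W₀) (h0 : ∀ u ∈ S₀ ∪ W₀, PP u) {p : ι → ZI}
    (hp : Tu (S₀ ∪ W₀) p) (a b : I → ZMod 2) (i : I) (v : ZI → ZMod 2) (z : Vc {u : ZI // u ∈ S₀ ∪ W₀} ι)
    (h1 : ∀ u ∈ (Lk x y W S₀ W₀ p).W i, z.1 u = v u) (h2 : ∀ l, z.2.1 l = v (p l)) :
    SolS (S₀ ∪ univ.image p ∪ W i) eO (fun π => dO π + (1 + x i) * tO π)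
      (fun π => gO π + (1 + y i) * tO π) s (a i) (b i) v z.2.2 ↔ (∀ u ∈ (Lk x y W S₀ W₀ p).W i, rowU (Lk x y W S₀ W₀ p) i z u = 0) ∧
        (∀ k, rowJ (Lk x y W S₀ W₀ p) (ext (Lk x y W S₀ W₀ p).tJ (tb p)) i z k = 0) ∧
        bor a b (Lk x y W S₀ W₀ p) i z = 0 := by
  set L := Lk x y W S₀ W₀ p with hL
  have hsub : S₀ ∪ W i ⊆ S₀ ∪ W₀ := union_subset_union_right (hW i)
  have hset : S₀ ∪ univ.image p ∪ W i = (S₀ ∪ W i) ∪ univ.image p := by
    rw [union_assoc, union_assoc, union_comm (W i)]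
  have hd : ∀ l, p l ∉ S₀ ∪ W i := fun l h => (hp.2 l).2 (hsub h)
  have hsum : ∀ F : ZI → ZMod 2, ∑ x' ∈ (S₀ ∪ W i) ∪ univ.image p, F x' =
      ∑ u ∈ L.W i, F u + ∑ l, F (p l) := fun F => by
    rw [sum_im hp.1 hd, sum_W x y hW]
  have hmem : ∀ u : {u : ZI // u ∈ S₀ ∪ W₀}, u ∈ L.W i ↔ (u : ZI) ∈ S₀ ∪ W i := fun u => by
    show u ∈ univ.filter (fun u : {u : ZI // u ∈ S₀ ∪ W₀} => (u : ZI) ∈ S₀ ∪ W i) ↔ _
    rw [mem_filter]
    exact ⟨fun h => h.2, fun h => ⟨mem_univ _, h⟩⟩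
  have rU : ∀ u ∈ L.W i, eO u * v u + ∑ ρ ∈ (S₀ ∪ W i) ∪ univ.image p, s ρ u * (v u + v ρ) +
      z.2.2 * (gO u + (1 + y i) * tO u) = rowU L i z u := by
    intro u hu
    rw [hsum]
    unfold rowU
    have e1 : ∑ w ∈ L.W i, L.A u w * (z.1 u + z.1 w) = ∑ w ∈ L.W i, s w u * (v u + v w) :=
      sum_congr rfl fun w hw => by rw [h1 u hu, h1 w hw]; rfl
    have e2 : ∑ l, L.B u l * (z.1 u + z.2.1 l) = ∑ l, s (p l) u * (v u + v (p l)) :=
      sum_congr rfl fun l _ => by rw [h1 u hu, h2 l]; rfl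
    rw [e1, e2, h1 u hu]
    show _ = eO u * v u + _ + _ + z.2.2 * (gO u + (1 + y i) * tO u)
    ring
  have rJ : ∀ k, eO (p k) * v (p k) + ∑ ρ ∈ (S₀ ∪ W i) ∪ univ.image p, s ρ (p k) *
      (v (p k) + v ρ) + z.2.2 * (gO (p k) + (1 + y i) * tO (p k)) = rowJ L (ext L.tJ (tb p)) i z k := by
    intro k
    rw [hsum]
    unfold rowJ fJ
    have e1 : ∑ u ∈ L.W i, (L.B u k + L.tU u * L.tJ k) * (z.2.1 k + z.1 u) =
        ∑ u ∈ L.W i, s u (p k) * (v (p k) + v u) :=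
      sum_congr rfl fun u hu => by
        rw [h1 u hu, h2 k]
        have h3 : s (u : ZI) (p k) = s (p k) u + tO u * tO (p k) :=
          rec' hS (hp.2 k).1 (h0 u u.2) fun h => (hp.2 k).2 (h ▸ u.2)
        rw [h3]
        rfl
    have e2 : ∑ l, ext L.tJ (tb p) k l * (z.2.1 k + z.2.1 l) =
        ∑ l, s (p l) (p k) * (v (p k) + v (p l)) :=
      sum_congr rfl fun l _ => by
        rw [h2 k, h2 l]
        have h3 := ext_eq hS hp.1 (fun i => (hp.2 i).1) k l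
        have h4 : ext L.tJ (tb p) k l = s (p l) (p k) := h3
        rw [h4]
    rw [e1, e2, h2 k]
    show _ = eO (p k) * v (p k) + _ + z.2.2 * (gO (p k) + (1 + y i) * tO (p k)) + _
    ring
  have rB : a i * z.2.2 + b i * ∑ ρ ∈ (S₀ ∪ W i) ∪ univ.image p, (dO ρ + (1 + x i) * tO ρ) * v ρ =
      bor a b L i z := by
    rw [hsum]
    unfold bor
    have e1 : ∑ u ∈ L.W i, L.dU i u * z.1 u = ∑ u ∈ L.W i, (dO (u : ZI) + (1 + x i) * tO u) * v u :=
      sum_congr rfl fun u hu => by rw [h1 u hu]; rfl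
    have e2 : ∑ l, L.dJ i l * z.2.1 l = ∑ l, (dO (p l) + (1 + x i) * tO (p l)) * v (p l) :=
      sum_congr rfl fun l _ => by rw [h2 l]; rfl
    rw [e1, e2]
  unfold SolS
  rw [hset, rB]
  constructor
  · rintro ⟨g1, g2⟩
    refine ⟨fun u hu => ?_, fun k => ?_, g2⟩
    · rw [← rU u hu]
      exact g1 _ (mem_union_left _ ((hmem u).1 hu))
    · rw [← rJ k]
      exact g1 _ (mem_union_right _ (mem_image_of_mem _ (mem_univ _)))
  · rintro ⟨g1, g2, g3⟩
    refine ⟨fun π hπ => ?_, g3⟩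
    rcases mem_union.1 hπ with h | h
    · have h5 := (hmem ⟨π, hsub h⟩).2 h
      exact (rU ⟨π, hsub h⟩ h5).trans (g1 _ h5)
    · obtain ⟨k, -, rfl⟩ := mem_image.1 h
      exact (rJ k).trans (g2 k)


/-- the solutions of the system of the set `S` -/
def Sol (a b x y : ZMod 2) (S : Finset ZI) : Set ((ZI → ZMod 2) × ZMod 2) :=
  {z | (∀ π, π ∉ S → z.1 π = 0) ∧ SolS S eO (fun π => dO π + (1 + x) * tO π)
    (fun π => gO π + (1 + y) * tO π) s a b z.1 z.2}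

/-- the solutions and the kernel -/
lemma card_sol (hS : SymP) {I ι : Type} [Fintype ι] [LinearOrder ι] (x y : I → ZMod 2)
    {W : I → Finset ZI} {S₀ W₀ : Finset ZI} (hW : ∀ i, W i ⊆ W₀) (h0 : ∀ u ∈ S₀ ∪ W₀, PP u)
    {p : ι → ZI} (hp : Tu (S₀ ∪ W₀) p) (a b : I → ZMod 2) (i : I) :
    Nat.card (Sol (a i) (b i) (x i) (y i) (S₀ ∪ univ.image p ∪ W i)) =
      2 ^ Module.finrank (ZMod 2) (Kr a b (Lk x y W S₀ W₀ p)
        (ext (Lk x y W S₀ W₀ p).tJ (tb p)) i) := by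
  have hsub : S₀ ∪ W i ⊆ S₀ ∪ W₀ := union_subset_union_right (hW i)
  have hmem : ∀ u : {u : ZI // u ∈ S₀ ∪ W₀}, u ∈ (Lk x y W S₀ W₀ p).W i ↔ (u : ZI) ∈ S₀ ∪ W i :=
    fun u => by
    show u ∈ univ.filter (fun u : {u : ZI // u ∈ S₀ ∪ W₀} => (u : ZI) ∈ S₀ ∪ W i) ↔ _
    rw [mem_filter]
    exact ⟨fun h => h.2, fun h => ⟨mem_univ _, h⟩⟩
  have hcard := Module.natCard_eq_pow_finrank (K := ZMod 2)
    (V := Kr a b (Lk x y W S₀ W₀ p) (ext (Lk x y W S₀ W₀ p).tJ (tb p)) i)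
  rw [Nat.card_zmod] at hcard
  rw [← hcard]
  set vv : Vc {u : ZI // u ∈ S₀ ∪ W₀} ι → ZI → ZMod 2 := fun z x =>
    if h : x ∈ S₀ ∪ W₀ then z.1 ⟨x, h⟩ else
      if h' : ∃ l, p l = x then z.2.1 h'.choose else 0 with hv
  have v1 : ∀ (z : Vc {u : ZI // u ∈ S₀ ∪ W₀} ι) (u : {u : ZI // u ∈ S₀ ∪ W₀}),
      z.1 u = vv z u := by
    intro z u
    rw [hv]
    simp only
    rw [dif_pos u.2]
  have v2 : ∀ (z : Vc {u : ZI // u ∈ S₀ ∪ W₀} ι) (l : ι), z.2.1 l = vv z (p l) := by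
    intro z l
    rw [hv]
    simp only
    have h' : ∃ l', p l' = p l := ⟨l, rfl⟩
    rw [dif_neg (hp.2 l).2, dif_pos h', hp.1 h'.choose_spec]
  have v3 : ∀ (z : Vc {u : ZI // u ∈ S₀ ∪ W₀} ι), (∀ u, u ∉ (Lk x y W S₀ W₀ p).W i → z.1 u = 0) →
      ∀ π, π ∉ S₀ ∪ univ.image p ∪ W i → vv z π = 0 := by
    intro z hz π hπ
    rw [hv]
    simp only
    by_cases h : π ∈ S₀ ∪ W₀
    · rw [dif_pos h]
      apply hz
      rw [hmem]
      intro h2
      apply hπ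
      rcases mem_union.1 h2 with h3 | h3
      · exact mem_union_left _ (mem_union_left _ h3)
      · exact mem_union_right _ h3
    · rw [dif_neg h]
      by_cases h' : ∃ l, p l = π
      · exfalso
        obtain ⟨l, rfl⟩ := h'
        exact hπ (mem_union_left _ (mem_union_right _ (mem_image_of_mem _ (mem_univ _))))
      · rw [dif_neg h']
  symm
  refine Nat.card_congr ⟨fun z => ⟨(vv z.1, z.1.2.2), v3 z.1 z.2.1, ?_⟩,
    fun w => ⟨(fun u => w.1.1 u, fun l => w.1.1 (p l), w.1.2), ?_⟩, ?_, ?_⟩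
  · exact (rows hS x y hW h0 hp a b i (vv z.1) z.1 (fun u _ => v1 z.1 u) (v2 z.1)).2
      ⟨z.2.2.1, z.2.2.2.1, z.2.2.2.2⟩
  · obtain ⟨g1, g2, g3⟩ := (rows hS x y hW h0 hp a b i w.1.1
      ((fun u => w.1.1 u, fun l => w.1.1 (p l), w.1.2) : Vc {u : ZI // u ∈ S₀ ∪ W₀} ι)
      (fun u _ => rfl) (fun l => rfl)).1 w.2.2
    refine ⟨fun u hu => ?_, g1, g2, g3⟩
    apply w.2.1
    intro h
    rcases mem_union.1 h with h | h
    · rcases mem_union.1 h with h | h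
      · exact hu ((hmem u).2 (mem_union_left _ h))
      · obtain ⟨l, -, hl⟩ := mem_image.1 h
        exact (hp.2 l).2 (hl ▸ u.2)
    · exact hu ((hmem u).2 (mem_union_right _ h))
  · intro z
    apply Subtype.ext
    refine Prod.ext ?_ (Prod.ext ?_ rfl)
    · funext u
      exact (v1 z.1 u).symm
    · funext l
      exact (v2 z.1 l).symm
  · intro w
    apply Subtype.ext
    refine Prod.ext ?_ rfl
    funext π
    show vv ((fun u => w.1.1 u, fun l => w.1.1 (p l), w.1.2) : Vc {u : ZI // u ∈ S₀ ∪ W₀} ι) π =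
      w.1.1 π
    rw [hv]
    simp only
    by_cases h : π ∈ S₀ ∪ W₀
    · rw [dif_pos h]
    · rw [dif_neg h]
      by_cases h' : ∃ l, p l = π
      · rw [dif_pos h', h'.choose_spec]
      · rw [dif_neg h']
        symm
        apply w.2.1
        intro h2
        rcases mem_union.1 h2 with h2 | h2
        · rcases mem_union.1 h2 with h2 | h2
          · exact h (mem_union_left _ h2)
          · obtain ⟨l, -, hl⟩ := mem_image.1 h2
            exact h' ⟨l, hl⟩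
        · exact h (mem_union_right _ (hW i h2))

lemma La_eq {I ι : Type} (x y : I → ZMod 2) {W : I → Finset ZI} {S₀ W₀ : Finset ZI}
    (hW : ∀ i, W i ⊆ W₀) (q : ι → ZI) (i : I) (k : ι) :
    La (Lk x y W S₀ W₀ q) i k = ∑ u ∈ S₀ ∪ W i, (s (q k) u + tO u * tO (q k)) := by
  rw [← sum_W x y hW q]
  rfl

lemma La_add {I ι : Type} (x y : I → ZMod 2) {W : I → Finset ZI} {S₀ W₀ : Finset ZI}
    (hW : ∀ i, W i ⊆ W₀) (q : ι → ZI) (i j : I) (k : ι) (τ : ZMod 2) :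
    La (Lk x y W S₀ W₀ q) i k + La (Lk x y W S₀ W₀ q) j k + τ * tO (q k) =
      dot (∑ u ∈ symmDiff (S₀ ∪ W i) (S₀ ∪ W j), tO u + τ, 0, 0, 0) (fc (q k)) +
        ∑ u ∈ symmDiff (S₀ ∪ W i) (S₀ ∪ W j), s (q k) u := by
  rw [La_eq x y hW, La_eq x y hW, sum_symm, dot_t, sum_add_distrib, ← sum_mul]
  ring

lemma hyp (hS : SymP) {I ι : Type} [Fintype ι] [LinearOrder ι] (x y : I → ZMod 2)
    {κ : Lb → Prop} (hκ0 : ∀ l, κ l → l.1 = 0) {W : I → Finset ZI}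
    {S₀ W₀ : Finset ZI} (hW : ∀ i, W i ⊆ W₀) (hinj : Function.Injective W)
    (hκ : ∀ i, ∑ u ∈ W i, tO u = 0) (h0 : ∀ u ∈ S₀ ∪ W₀, PP u) {q : ι → ZI}
    (hq : Tu (S₀ ∪ W₀) q) {K V : ℕ} (hN : NK κ W₀ K (V + 1) W₀ S₀ (univ.image q)) :
    Hyp K V (Lk x y W S₀ W₀ q) := by
  obtain ⟨⟨hk, hdis⟩, hR⟩ := hN
  have hcard : Fintype.card {u : ZI // u ∈ S₀ ∪ W₀} = (S₀ ∪ W₀).card := Fintype.card_coe _
  have hsub : ∀ i j, symmDiff (S₀ ∪ W i) (S₀ ∪ W j) ⊆ S₀ ∪ W₀ := by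
    intro i j x hx
    have h1 : symmDiff (S₀ ∪ W i) (S₀ ∪ W j) = ((S₀ ∪ W i) \ (S₀ ∪ W j)) ∪
      ((S₀ ∪ W j) \ (S₀ ∪ W i)) := rfl
    rw [h1, mem_union] at hx
    rcases hx with h | h
    · exact union_subset_union_right (hW i) (mem_sdiff.1 h).1
    · exact union_subset_union_right (hW j) (mem_sdiff.1 h).1
  have hdS : Disjoint W₀ S₀ := hdis.mono_right subset_union_left
  have hne : ∀ i j, i ≠ j → (symmDiff (S₀ ∪ W i) (S₀ ∪ W j)).Nonempty := by
    intro i j hij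
    rw [nonempty_iff_ne_empty]
    intro h
    have h1 : S₀ ∪ W i = S₀ ∪ W j := symmDiff_eq_bot.1 h
    apply hij
    apply hinj
    have h2 : ∀ l, (S₀ ∪ W l) \ S₀ = W l := fun l => by
      rw [union_sdiff_left]
      exact sdiff_eq_self_of_disjoint (hdS.mono_left (hW l))
    rw [← h2 i, ← h2 j, h1]
  have hcount : ∀ (c : Lb) (w : Finset ZI), w ⊆ S₀ ∪ W₀ → (c ≠ 0 ∨ w.Nonempty) →
      K * (S₀ ∪ W₀).card + (V + 1) ≤
        (univ.filter fun k => dot c (fc (q k)) + ∑ u ∈ w, s (q k) u ≠ 0).card := by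
    intro c w h1 h2
    have h3 := hR c w h1 h2
    have h4 := card_im hq.1 (fun π => dot c (fc π) + ∑ u ∈ w, s π u ≠ 0)
    rw [← h4]
    convert h3
  have hex : ∀ (c : Lb) (w : Finset ZI), w ⊆ S₀ ∪ W₀ → (c ≠ 0 ∨ w.Nonempty) →
      ∃ k, dot c (fc (q k)) + ∑ u ∈ w, s (q k) u ≠ 0 := by
    intro c w h1 h2
    have h3 := hcount c w h1 h2
    have h4 : 0 < (univ.filter fun k => dot c (fc (q k)) + ∑ u ∈ w, s (q k) u ≠ 0).card := by omega
    obtain ⟨k, hk⟩ := card_pos.1 h4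
    exact ⟨k, (mem_filter.1 hk).2⟩
  refine ⟨fun i j => ?_, fun i j hij => ?_, fun i => ?_, fun u v huv => ?_, ?_⟩
  · have h1 : (∑ u ∈ symmDiff (S₀ ∪ W i) (S₀ ∪ W j), tO u + 1, 0, 0, 0) ≠ (0 : Lb) ∨
        (symmDiff (S₀ ∪ W i) (S₀ ∪ W j)).Nonempty := by
      by_cases hij : i = j
      · left
        subst hij
        rw [symmDiff_self]
        intro h
        have := congrArg Prod.fst h
        simp at this
      · right
        exact hne i j hij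
    have h2 := hcount _ _ (hsub i j) h1
    rw [hcard]
    refine le_trans (by omega) (h2.trans (card_le_card ?_))
    intro k hk
    rw [mem_filter] at hk ⊢
    refine ⟨hk.1, (ne0 _).2 ?_⟩
    have h3 := La_add x y hW q i j k (S₀ := S₀) 1
    rw [one_mul] at h3
    rw [← h3] at hk
    exact hk.2
  · have h2 := hcount (∑ u ∈ symmDiff (S₀ ∪ W i) (S₀ ∪ W j), tO u + 0, 0, 0, 0) _ (hsub i j)
      (Or.inr (hne i j hij))
    rw [hcard]
    refine le_trans (by omega) (h2.trans (card_le_card ?_))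
    intro k hk
    rw [mem_filter] at hk ⊢
    refine ⟨hk.1, (ne0 _).2 ?_⟩
    have h3 := La_add x y hW q i j k (S₀ := S₀) 0
    rw [zero_mul, add_zero] at h3
    rw [← h3] at hk
    exact hk.2
  · have e1 : ∑ u ∈ (Lk x y W S₀ W₀ q).W i, (Lk x y W S₀ W₀ q).tU u = ∑ u ∈ S₀ ∪ W i, tO u := by
      rw [← sum_W x y hW q]
      rfl
    have e2 : ∑ j, (Lk x y W S₀ W₀ q).tJ j = ∑ j, tO (q j) := rfl
    rw [e1, e2, sum_union ((hdS.mono_left (hW i)).symm)]
    have h1 : ∑ u ∈ W i, tO u = 0 := hκ i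
    have h2 : ∑ u ∈ S₀ ∪ univ.image q, tO u = 0 := by
      have := hκ0 _ hk
      rw [Prod.fst_sum] at this
      exact this
    rw [sum_im hq.1 fun l hl => (hq.2 l).2 (mem_union_left _ hl)] at h2
    rw [h1, add_zero]
    exact h2
  · show s v u + s u v = tO u * tO v
    rw [mul_comm]
    exact hS.recip v u (h0 v v.2) (h0 u u.2) fun h => huv (Subtype.ext h.symm)
  · intro i w e f hwef
    obtain ⟨w', hw1, hw2, hw3⟩ := sum_w w
    constructor
    · have hc : (f * (1 + y i) + ∑ u ∈ w', tO u, 0, f, e) ≠ (0 : Lb) ∨ w'.Nonempty := by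
        by_cases hw : w'.Nonempty
        · exact Or.inr hw
        · left
          intro h
          have hf : f = 0 := congrArg (fun x : Lb => x.2.2.1) h
          have he : e = 0 := congrArg (fun x : Lb => x.2.2.2) h
          rcases hwef with h1 | h1 | h1
          · exact hw (hw2 h1)
          · exact h1 he
          · exact h1 hf
      obtain ⟨k, hk⟩ := hex _ _ hw1 hc
      refine ⟨k, ?_⟩
      have e1 : ∑ u, w u * ((Lk x y W S₀ W₀ q).B u k + (Lk x y W S₀ W₀ q).tU u * (Lk x y W S₀ W₀ q).tJ k) =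
          ∑ u ∈ w', (s (q k) u + tO u * tO (q k)) := by
        rw [← hw3]
        rfl
      rw [e1, sum_add_distrib, ← sum_mul]
      intro h
      apply hk
      refine Eq.trans ?_ h
      show ((f * (1 + y i) + ∑ u ∈ w', tO u) * tO (q k) + 0 * dO (q k) + f * gO (q k) +
        e * eO (q k)) + ∑ u ∈ w', s (q k) u = e * eO (q k) + f * (gO (q k) + (1 + y i) * tO (q k)) +
          (∑ x ∈ w', s (q k) x + (∑ i ∈ w', tO i) * tO (q k))
      ring
    · have hc : (e + f * (1 + x i), f, 0, e) ≠ (0 : Lb) ∨ w'.Nonempty := by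
        by_cases hw : w'.Nonempty
        · exact Or.inr hw
        · left
          intro h
          have hf : f = 0 := congrArg (fun x : Lb => x.2.1) h
          have he : e = 0 := congrArg (fun x : Lb => x.2.2.2) h
          rcases hwef with h1 | h1 | h1
          · exact hw (hw2 h1)
          · exact h1 he
          · exact h1 hf
      obtain ⟨k, hk⟩ := hex _ _ hw1 hc
      refine ⟨k, ?_⟩
      have e1 : ∑ u, w u * (Lk x y W S₀ W₀ q).B u k = ∑ u ∈ w', s (q k) u := by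
        rw [← hw3]
        rfl
      rw [e1]
      intro h
      apply hk
      refine Eq.trans ?_ h
      show ((e + f * (1 + x i)) * tO (q k) + f * dO (q k) + 0 * gO (q k) + e * eO (q k)) +
        ∑ u ∈ w', s (q k) u = e * (eO (q k) + tO (q k)) + f * (dO (q k) + (1 + x i) * tO (q k)) +
          ∑ u ∈ w', s (q k) u
      ring


/-- the instances do not matter -/
lemma card_inst {α : Type} (s : Finset α) (p : α → Prop) (i j : DecidablePred p) :
    (((@Finset.filter α p i s).card : ℕ) : ℝ) = ((@Finset.filter α p j s).card : ℕ) := by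
  rw [Subsingleton.elim i j]

/-- the number of the solutions of the system of a set; the system depends on the label of the product -/
def Cor (a b x y : Lb → ZMod 2) (S : Finset ZI) (k : ℕ) : Prop :=
  Nat.card (Sol (a (∑ π ∈ S, fc π)) (b (∑ π ∈ S, fc π)) (x (∑ π ∈ S, fc π)) (y (∑ π ∈ S, fc π)) S) =
    2 ^ k

/-- the local proportion -/
theorem loc (hS : SymP) (I : Type) [Fintype I] (a b x y : I → Lb → ZMod 2) (κ : Lb → Prop)
    (hκ0 : ∀ l, κ l → l.1 = 0) (W : I → Finset ZI) (W₀ : Finset ZI)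
    (hab : ∀ i l, a i l ≠ 0 ∨ b i l ≠ 0) (hW0 : ∀ u ∈ W₀, PP u)
    (hW : ∀ i, W i ⊆ W₀) (hinj : Function.Injective W) (hκ : ∀ i, ∑ u ∈ W i, tO u = 0)
    (kk : I → ℕ) (ε : ℝ) (hε : 0 < ε) : ∃ A R : ℕ, Loc (NK κ W₀ A R W₀)
      (fun S => ∀ i, Cor (a i) (b i) (x i) (y i) (S ∪ W i) (kk i)) W₀ (∏ i, law c2 (kk i)) ε := by
  obtain ⟨K, V, hKV⟩ := lawJ I kk ε hε
  refine ⟨K, V + 1, ?_⟩
  intro ι _ _ S₀ q hS0 hq hN
  have h0 : ∀ u ∈ S₀ ∪ W₀, PP u := fun u hu => (mem_union.1 hu).elim (hS0 u) (hW0 u)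
  -- the labels
  set lab : I → Lb := fun i => ∑ π ∈ S₀ ∪ W i, fc π + ∑ l, fc (q l) with hlab
  have hl : ∀ p : ι → ZI, Tu (S₀ ∪ W₀) p → (∀ i, lb (S₀ ∪ W₀) (p i) = lb (S₀ ∪ W₀) (q i)) →
      ∀ i, ∑ π ∈ S₀ ∪ univ.image p ∪ W i, fc π = lab i := by
    intro p hp hpq i
    have hset : S₀ ∪ univ.image p ∪ W i = (S₀ ∪ W i) ∪ univ.image p := by
      rw [union_assoc, union_assoc, union_comm (W i)]
    have hd : Disjoint (S₀ ∪ W i) (univ.image p) := by
      rw [disjoint_left]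
      intro x hx hx'
      obtain ⟨l, -, rfl⟩ := mem_image.1 hx'
      exact (hp.2 l).2 (union_subset_union_right (hW i) hx)
    rw [hset, sum_union hd, sum_image fun x _ y _ h => hp.1 h, hlab]
    congr 1
    exact sum_congr rfl fun l _ => congrArg Prod.snd (hpq l)
  set a' : I → ZMod 2 := fun i => a i (lab i) with ha'
  set b' : I → ZMod 2 := fun i => b i (lab i) with hb'
  set x' : I → ZMod 2 := fun i => x i (lab i) with hx'
  set y' : I → ZMod 2 := fun i => y i (lab i) with hy'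
  have hH := hyp hS x' y' hκ0 hW hinj hκ h0 hq hN
  have h1 := hKV a' b' (fun i => hab i _) _ _ _ hH
  rw [abs_le] at h1
  have h2 : (0 : ℝ) < 2 ^ (prs ι).card := by positivity
  refine ⟨fun α => ∀ i, Module.finrank (ZMod 2) (Kr a' b' (Lk x' y' W S₀ W₀ q)
      (ext (Lk x' y' W S₀ W₀ q).tJ α) i) = kk i,
    fun α => ∀ i, Module.finrank (ZMod 2) (Kr a' b' (Lk x' y' W S₀ W₀ q)
      (ext (Lk x' y' W S₀ W₀ q).tJ α) i) = kk i, ?_, ?_, ?_⟩
  · have h3 : ∏ i, law c2 (kk i) - ε ≤ ((univ.filter fun α : prs ι → ZMod 2 =>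
        ∀ i, Module.finrank (ZMod 2) (Kr a' b' (Lk x' y' W S₀ W₀ q)
      (ext (Lk x' y' W S₀ W₀ q).tJ α) i) = kk i).card : ℝ) / 2 ^ (prs ι).card := by
      linarith [h1.1]
    rw [le_div_iff₀ h2] at h3
    exact h3.trans (le_of_eq (card_inst _ _ _ _))
  · have h3 : ((univ.filter fun α : prs ι → ZMod 2 =>
        ∀ i, Module.finrank (ZMod 2) (Kr a' b' (Lk x' y' W S₀ W₀ q)
      (ext (Lk x' y' W S₀ W₀ q).tJ α) i) = kk i).card : ℝ) / 2 ^ (prs ι).card ≤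
        ∏ i, law c2 (kk i) + ε := by
      linarith [h1.2]
    rw [div_le_iff₀ h2] at h3
    exact (le_of_eq (card_inst _ _ _ _)).trans h3
  · intro p hp hpq
    have h3 := Lk_eq x' y' W S₀ W₀ p q hpq
    rw [← h3]
    have h4 : (∀ i, Cor (a i) (b i) (x i) (y i) (S₀ ∪ univ.image p ∪ W i) (kk i)) ↔
        ∀ i, Module.finrank (ZMod 2) (Kr a' b' (Lk x' y' W S₀ W₀ p)
          (ext (Lk x' y' W S₀ W₀ p).tJ (tb p)) i) = kk i := by
      refine forall_congr' fun i => ?_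
      unfold Cor
      rw [hl p hp hpq i, card_sol hS x' y' hW h0 hp a' b' i]
      exact Nat.pow_right_injective (le_refl 2) |>.eq_iff
    exact ⟨h4.2, h4.1⟩

end Pool.Agent.H848.FL.Loc
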