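import Pool.Graph.R_seed8.R306.QJ.MomJ

/-!
# Project FL: the law of finitely many random numbers from the joint moments of `2 ^ r`

If the moments of `∏ (2 ^ r - 2 ^ a)` are close to one, then the random number `r` is equal to `k` with the
probability `2 ^ (-k²) ∏_{i > k} (1 - 2 ^ (-i)) / ∏_{i ≤ k} (1 - 2 ^ (-i))`, approximately (the measure of
Cohen and Lenstra on vector spaces over the field with two elements), and several numbers are independent.
After `R306/QJ/MomJ.lean` (the case `k = 0`).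
-/

set_option autoImplicit false

open Finset Filter

namespace Pool.Agent.H848.FL

open Pool.Agent.R906.QK Pool.Agent.R306.QJ

/-- the moment function -/
noncomputable def ww (m r : ℕ) : ℝ := ∏ a ∈ range m, ((2 : ℝ) ^ r - 2 ^ a)

/-- the order of `GL_k` over the field with two elements -/
noncomputable def gl (k : ℕ) : ℝ := ww k k

/-- the products `(1 - 1/2) ⋯ (1 - 1/2^k)` -/
noncomputable def pk (k : ℕ) : ℝ := ∏ i ∈ range k, (1 - (1 / 2 : ℝ) ^ (i + 1))

/-- the law -/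
noncomputable def law (c : ℝ) (k : ℕ) : ℝ := c / (pk k * gl k)

lemma ww_nonneg (m r : ℕ) : 0 ≤ ww m r := pr_nonneg m r

lemma ww_zero {m r : ℕ} (h : r < m) : ww m r = 0 :=
  Finset.prod_eq_zero (i := r) (Finset.mem_range.2 h) (sub_self _)

lemma gl_ge (k : ℕ) : 1 ≤ gl k := by
  unfold gl ww
  rw [← Finset.prod_const_one (s := range k)]
  refine Finset.prod_le_prod (fun _ _ => zero_le_one) fun a ha => ?_
  rw [Finset.mem_range] at ha
  have h1 : (2 : ℝ) ^ (a + 1) ≤ 2 ^ k := pow_le_pow_right₀ (by norm_num) (by omega)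
  have h2 : (1 : ℝ) ≤ 2 ^ a := one_le_pow₀ (by norm_num)
  rw [pow_succ] at h1
  linarith

lemma pk_nonneg_le (k : ℕ) : 0 ≤ pk k ∧ pk k ≤ 1 := by
  have h1 : ∀ i : ℕ, 0 ≤ (1 / 2 : ℝ) ^ (i + 1) ∧ (1 / 2 : ℝ) ^ (i + 1) ≤ 1 := fun i =>
    ⟨by positivity, pow_le_one₀ (by norm_num) (by norm_num)⟩
  refine ⟨Finset.prod_nonneg fun i _ => by linarith [(h1 i).2],
    Finset.prod_le_one (fun i _ => by linarith [(h1 i).2]) fun i _ => by linarith [(h1 i).1]⟩

lemma pk_anti : Antitone pk := by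
  apply antitone_nat_of_succ_le
  intro n
  unfold pk
  rw [Finset.prod_range_succ]
  have h1 : 0 ≤ (1 / 2 : ℝ) ^ (n + 1) := by positivity
  nlinarith [(pk_nonneg_le n).1, show 0 ≤ ∏ i ∈ range n, (1 - (1 / 2 : ℝ) ^ (i + 1)) from
    (pk_nonneg_le n).1]

lemma pk_ge {c : ℝ} (hc : c = ∏' i : ℕ, (1 - (1 / 2 : ℝ) ^ (i + 1))) (k : ℕ) : c ≤ pk k :=
  pk_anti.le_of_tendsto (c2_main c hc).1 k

/-- splitting of the moment functions -/
lemma ww_split (k m ρ : ℕ) : ww (k + m) (k + ρ) = ww k (k + ρ) * ((2 : ℝ) ^ (k * m) * ww m ρ) := by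
  unfold ww
  rw [Finset.prod_range_add]
  congr 1
  have h1 : (2 : ℝ) ^ (k * m) = ∏ _a ∈ range m, (2 : ℝ) ^ k := by
    rw [Finset.prod_const, Finset.card_range, pow_mul]
  rw [h1, ← Finset.prod_mul_distrib]
  refine Finset.prod_congr rfl fun a _ => ?_
  rw [pow_add, pow_add]
  ring

/-- the coefficients -/
noncomputable def cf (k m : ℕ) : ℝ := aa m * ((1 / 2 : ℝ) ^ k) ^ m

lemma cf_nonneg (k m : ℕ) : 0 ≤ cf k m := mul_nonneg (aa_nonneg m) (by positivity)

lemma cf_le (k m : ℕ) : cf k m ≤ aa m := by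
  have h1 : ((1 / 2 : ℝ) ^ k) ^ m ≤ 1 := pow_le_one₀ (by positivity)
    (pow_le_one₀ (by norm_num) (by norm_num))
  have h2 := mul_le_mul_of_nonneg_left h1 (aa_nonneg m)
  rw [mul_one] at h2
  exact h2

/-- the alternating sum is close to the indicator of `k` -/
theorem ind_close_k (T k r : ℕ) :
    |(if r = k then gl k else 0) -
      ∑ m ∈ range (T + 1 + 1), (-1 : ℝ) ^ m * cf k m * ww (k + m) r| ≤
      cf k (T + 1) * ww (k + (T + 1)) r := by
  by_cases hr : r < k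
  · have h1 : ∀ m, ww (k + m) r = 0 := fun m => ww_zero (by omega)
    rw [if_neg (by omega), h1, mul_zero]
    simp only [h1, mul_zero, Finset.sum_const_zero, sub_zero, abs_zero, le_refl]
  · obtain ⟨ρ, rfl⟩ := Nat.exists_eq_add_of_le (not_lt.1 hr)
    have h1 := ind_close T ρ
    have h2 := mul_le_mul_of_nonneg_left h1 (ww_nonneg k (k + ρ))
    have e1 : ∀ m, cf k m * ww (k + m) (k + ρ) = ww k (k + ρ) * gg m ρ := by
      intro m
      rw [ww_split]
      unfold cf gg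
      have e2 : ((1 / 2 : ℝ) ^ k) ^ m * 2 ^ (k * m) = 1 := by
        rw [← pow_mul, ← mul_pow]
        norm_num
      have e3 : ww m ρ = ∏ i ∈ range m, ((2 : ℝ) ^ ρ - 2 ^ i) := rfl
      rw [← e3]
      linear_combination (aa m * ww k (k + ρ) * ww m ρ) * e2
    rw [e1]
    have e4 : ∀ m, (-1 : ℝ) ^ m * cf k m * ww (k + m) (k + ρ) =
        ww k (k + ρ) * ((-1 : ℝ) ^ m * gg m ρ) := by
      intro m
      rw [mul_assoc, e1]
      ring
    simp only [e4]
    rw [← Finset.mul_sum]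
    have e5 : (if k + ρ = k then gl k else 0) = ww k (k + ρ) * (if ρ = 0 then (1 : ℝ) else 0) := by
      by_cases h : ρ = 0
      · subst h
        rw [if_pos rfl, if_pos (add_zero k), mul_one]
        rfl
      · rw [if_neg h, if_neg (by omega), mul_zero]
    rw [e5, ← mul_sub, abs_mul, abs_of_nonneg (ww_nonneg k (k + ρ))]
    exact h2

/-- the value of the alternating sum of the coefficients -/
theorem sum_cf (c : ℝ) (hc : c = ∏' i : ℕ, (1 - (1 / 2 : ℝ) ^ (i + 1))) (M k : ℕ) :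
    |∑ m ∈ range (M + 1), (-1 : ℝ) ^ m * cf k m - c / pk k| ≤ 16 * (1 / 2 : ℝ) ^ M := by
  have h1 : ∑ m ∈ range (M + 1), (-1 : ℝ) ^ m * cf k m = FM M ((1 / 2 : ℝ) ^ k) := by
    unfold FM cf
    refine Finset.sum_congr rfl fun m _ => by ring
  have h2 := FM_bound M k
  have h3 := sum_close c hc M
  have h4 : FM M 1 = ∑ m ∈ range (M + 1), (-1 : ℝ) ^ m * aa m := by
    unfold FM; simp
  rw [← h4] at h3
  have h5 := pk_ge hc k
  have h6 := (c2_main c hc).2.2.2.1
  have hp : 0 < pk k := by linarith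
  have h7 : |pk k * FM M ((1 / 2 : ℝ) ^ k) - c| ≤ 4 * (1 / 2 : ℝ) ^ M := by
    have h8 := aa_le M
    have h9 : aa M * (1 - (1 / 2 : ℝ) ^ k) ≤ aa M := by
      have h10 := aa_nonneg M
      have h11 : (0 : ℝ) ≤ (1 / 2) ^ k := by positivity
      nlinarith [mul_nonneg h10 h11]
    have h12 : |FM M 1 - pk k * FM M ((1 / 2 : ℝ) ^ k)| ≤ aa M * (1 - (1 / 2 : ℝ) ^ k) := h2
    rw [abs_le] at h12 h3 ⊢
    constructor <;> linarith
  rw [h1]
  have h8 : FM M ((1 / 2 : ℝ) ^ k) - c / pk k = (pk k * FM M ((1 / 2 : ℝ) ^ k) - c) / pk k := by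
    field_simp
  rw [h8, abs_div, abs_of_pos hp, div_le_iff₀ hp]
  have h9 : (0 : ℝ) ≤ (1 / 2) ^ M := by positivity
  nlinarith

lemma sum_cf_le (M k : ℕ) : ∑ m ∈ range M, cf k m ≤ 4 :=
  (Finset.sum_le_sum fun m _ => cf_le k m).trans (sum_aa_le M)

section joint

variable {I Ω : Type} [Fintype I] [DecidableEq I] [Fintype Ω] [Nonempty Ω]

/-- expectations of products -/
theorem expect_shift (r : Ω → I → ℕ) (N : ℕ) (k : I → ℕ) (δ : ℝ) (u : I → ℕ → ℝ)
    (h : ∀ m : I → ℕ, (∀ i, m i < N) →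
      |(∑ ω, ∏ i, ww (k i + m i) (r ω i)) / Fintype.card Ω - 1| ≤ δ) :
    |(∑ ω, ∏ i, ∑ m ∈ range N, u i m * ww (k i + m) (r ω i)) /
        Fintype.card Ω - ∏ i, ∑ m ∈ range N, u i m| ≤
      δ * ∏ i, ∑ m ∈ range N, |u i m| := by
  have e1 : ∀ ω, ∏ i, ∑ m ∈ range N, u i m * ww (k i + m) (r ω i) =
      ∑ m ∈ Fintype.piFinset (fun _ : I => range N), (∏ i, u i (m i)) *
        ∏ i, ww (k i + m i) (r ω i) := by
    intro ω
    rw [Finset.prod_univ_sum]
    apply Finset.sum_congr rfl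
    intro m _
    rw [Finset.prod_mul_distrib]
  have e2 : ∏ i, ∑ m ∈ range N, u i m =
      ∑ m ∈ Fintype.piFinset (fun _ : I => range N), ∏ i, u i (m i) := by
    rw [Finset.prod_univ_sum]
  have e3 : ∏ i, ∑ m ∈ range N, |u i m| =
      ∑ m ∈ Fintype.piFinset (fun _ : I => range N), ∏ i, |u i (m i)| := by
    rw [Finset.prod_univ_sum]
  rw [Finset.sum_congr rfl fun ω _ => e1 ω, Finset.sum_comm, Finset.sum_div, e2, e3,
    ← Finset.sum_sub_distrib, Finset.mul_sum]
  refine (Finset.abs_sum_le_sum_abs _ _).trans (Finset.sum_le_sum fun m hm => ?_)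
  rw [Fintype.mem_piFinset] at hm
  have h1 := h m fun i => Finset.mem_range.1 (hm i)
  rw [← Finset.mul_sum, mul_div_assoc]
  have e4 : (∏ i, u i (m i)) * ((∑ ω, ∏ i, ww (k i + m i) (r ω i)) /
      Fintype.card Ω) - ∏ i, u i (m i) = (∏ i, u i (m i)) *
      ((∑ ω, ∏ i, ww (k i + m i) (r ω i)) / Fintype.card Ω - 1) := by ring
  rw [e4, abs_mul, Finset.abs_prod, mul_comm]
  exact mul_le_mul_of_nonneg_right h1 (Finset.prod_nonneg fun i _ => abs_nonneg _)

end joint

lemma prod_if_le {I : Type} [Fintype I] [DecidableEq I] (i : I) {a B : ℝ} (ha : 0 ≤ a) (hB : 1 ≤ B)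
    {f : I → ℝ} (hf0 : ∀ k, 0 ≤ f k) (hi : f i ≤ a) (hf : ∀ k, k ≠ i → f k ≤ B) :
    ∏ k, f k ≤ a * B ^ Fintype.card I := by
  rw [← Finset.mul_prod_erase Finset.univ _ (Finset.mem_univ i)]
  have hB0 : (0 : ℝ) ≤ B := by linarith
  calc f i * ∏ k ∈ Finset.univ.erase i, f k ≤ a * ∏ k ∈ Finset.univ.erase i, f k :=
        mul_le_mul_of_nonneg_right hi (Finset.prod_nonneg fun k _ => hf0 k)
    _ ≤ a * B ^ (Finset.univ.erase i).card := by
        apply mul_le_mul_of_nonneg_left _ ha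
        rw [← Finset.prod_const]
        exact Finset.prod_le_prod (fun k _ => hf0 k) fun k hk => hf k (Finset.ne_of_mem_erase hk)
    _ ≤ a * B ^ Fintype.card I := by
        apply mul_le_mul_of_nonneg_left _ ha
        exact pow_le_pow_right₀ hB (Finset.card_le_univ _)

/-- **the law of finitely many random numbers**, from the moments -/
theorem law_main (c : ℝ) (hc : c = ∏' i : ℕ, (1 - (1 / 2 : ℝ) ^ (i + 1))) (I : Type) [Fintype I]
    (k : I → ℕ) (ε : ℝ) (hε : 0 < ε) :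
    ∃ (M : ℕ) (δ : ℝ), 0 < δ ∧ ∀ (Ω : Type) [Fintype Ω] [Nonempty Ω] (r : Ω → I → ℕ),
      (∀ m : I → ℕ, (∀ i, m i ≤ M) →
        |(∑ ω, ∏ i, ∏ a ∈ range (m i), ((2 : ℝ) ^ r ω i - 2 ^ a)) / Fintype.card Ω - 1| ≤ δ) →
      |(∑ ω, if (∀ i, r ω i = k i) then (1 : ℝ) else 0) / Fintype.card Ω - ∏ i, law c (k i)| ≤
        ε := by
  classical
  set n := Fintype.card I with hn
  have h8n : (0 : ℝ) < 8 ^ n := by positivity
  obtain ⟨K, hK⟩ := exists_pow_lt_of_lt_one
    (show 0 < ε / (2 * (n + 1) * (32 * 8 ^ n)) by positivity) (show (1 / 2 : ℝ) < 1 by norm_num)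
  obtain ⟨K0, hK0⟩ : ∃ K0 : ℕ, ∀ i, k i ≤ K0 := ⟨Finset.univ.sup k, fun i =>
    Finset.le_sup (f := k) (Finset.mem_univ i)⟩
  refine ⟨K0 + (K + 1), min 1 (ε / (2 * 8 ^ n)), lt_min one_pos (by positivity), ?_⟩
  intro Ω _ _ r hm
  set δ := min 1 (ε / (2 * 8 ^ n)) with hδ
  have hδ1 : δ ≤ 1 := min_le_left _ _
  have hδ0 : 0 ≤ δ := le_min zero_le_one (by positivity)
  have hδ2 : δ * 8 ^ n ≤ ε / 2 := by
    have : δ ≤ ε / (2 * 8 ^ n) := min_le_right _ _
    calc δ * 8 ^ n ≤ ε / (2 * 8 ^ n) * 8 ^ n := mul_le_mul_of_nonneg_right this h8n.le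
      _ = ε / 2 := by field_simp
  have hN : (0 : ℝ) < Fintype.card Ω := by exact_mod_cast Fintype.card_pos
  have hKe : (1 / 2 : ℝ) ^ K * (n * (32 * 8 ^ n)) ≤ ε / 2 := by
    have h1 : (1 / 2 : ℝ) ^ K * (2 * (n + 1) * (32 * 8 ^ n)) ≤ ε := by
      rw [lt_div_iff₀ (by positivity)] at hK
      exact hK.le
    have h2 : (0 : ℝ) ≤ (1 / 2) ^ K * (32 * 8 ^ n) := by positivity
    nlinarith
  have hm' : ∀ m : I → ℕ, (∀ i, m i < K + 1 + 1) →
      |(∑ ω, ∏ i, ww (k i + m i) (r ω i)) / Fintype.card Ω - 1| ≤ δ := by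
    intro m hmi
    refine hm (fun i => k i + m i) fun i => ?_
    have h1 := hmi i
    have h2 := hK0 i
    show k i + m i ≤ K0 + (K + 1)
    omega
  -- the sums
  set G : ℕ → ℕ → ℝ := fun j ρ => ∑ m ∈ range (K + 1 + 1), 2 * cf j m * ww (j + m) ρ with hG
  set S : ℕ → ℕ → ℝ := fun j ρ => ∑ m ∈ range (K + 1 + 1), (-1 : ℝ) ^ m * cf j m * ww (j + m) ρ
    with hS
  have hterm : ∀ j m ρ, 0 ≤ cf j m * ww (j + m) ρ := fun j m ρ =>
    mul_nonneg (cf_nonneg j m) (ww_nonneg _ _)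
  have hS1 : ∀ j ρ, |S j ρ| ≤ ∑ m ∈ range (K + 1 + 1), cf j m * ww (j + m) ρ := by
    intro j ρ
    refine (Finset.abs_sum_le_sum_abs _ _).trans (Finset.sum_le_sum fun m _ => ?_)
    rw [mul_assoc, abs_mul, abs_pow, abs_neg, abs_one, one_pow, one_mul,
      abs_of_nonneg (hterm j m ρ)]
  have hSG2 : ∀ j ρ, ∑ m ∈ range (K + 1 + 1), cf j m * ww (j + m) ρ ≤ G j ρ := by
    intro j ρ
    refine Finset.sum_le_sum fun m _ => ?_
    have := hterm j m ρ
    linarith
  have hSG : ∀ j ρ, |S j ρ| ≤ G j ρ := fun j ρ => (hS1 j ρ).trans (hSG2 j ρ)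
  have hphi : ∀ j ρ, |(if ρ = j then gl j else 0)| ≤ G j ρ := by
    intro j ρ
    have h1 := ind_close_k K j ρ
    have h2 : cf j (K + 1) * ww (j + (K + 1)) ρ ≤
        ∑ m ∈ range (K + 1 + 1), cf j m * ww (j + m) ρ :=
      Finset.single_le_sum (f := fun m => cf j m * ww (j + m) ρ) (fun m _ => hterm j m ρ)
        (Finset.mem_range.2 (by omega))
    have h3 := hS1 j ρ
    have h4 : G j ρ = 2 * ∑ m ∈ range (K + 1 + 1), cf j m * ww (j + m) ρ := by
      rw [Finset.mul_sum]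
      refine Finset.sum_congr rfl fun m _ => by ring
    have h5 : |(if ρ = j then gl j else 0)| ≤ |(if ρ = j then gl j else 0) - S j ρ| + |S j ρ| := by
      have := abs_add_le ((if ρ = j then gl j else 0) - S j ρ) (S j ρ)
      rwa [sub_add_cancel] at this
    rw [h4]
    have h6 : |(if ρ = j then gl j else 0) - S j ρ| ≤ cf j (K + 1) * ww (j + (K + 1)) ρ := h1
    linarith
  have hind : ∀ ω, (if (∀ i, r ω i = k i) then (1 : ℝ) else 0) * ∏ i, gl (k i) =
      ∏ i, (if r ω i = k i then gl (k i) else 0) := by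
    intro ω
    split_ifs with h
    · rw [one_mul]
      refine Finset.prod_congr rfl fun i _ => ?_
      rw [if_pos (h i)]
    · push Not at h
      obtain ⟨i, hi⟩ := h
      rw [zero_mul, Finset.prod_eq_zero (Finset.mem_univ i)]
      rw [if_neg hi]
  have hpt : ∀ ω, |∏ i, (if r ω i = k i then gl (k i) else 0) - ∏ i, S (k i) (r ω i)| ≤
      ∑ i, ∏ j, (if j = i then cf (k j) (K + 1) * ww (k j + (K + 1)) (r ω j) else
        G (k j) (r ω j)) := by
    intro ω
    apply prod_diff Finset.univ (fun i => if r ω i = k i then gl (k i) else 0)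
      (fun i => S (k i) (r ω i)) (fun i => cf (k i) (K + 1) * ww (k i + (K + 1)) (r ω i))
      (fun i => G (k i) (r ω i))
    · intro i
      exact hphi _ _
    · intro i; exact hSG _ _
    · intro i; exact ind_close_k K (k i) (r ω i)
  have haa1 : aa (K + 1) ≤ 1 := by
    have h1 := aa_le (K + 1)
    have h2 : (1 / 2 : ℝ) ^ (K + 1) ≤ 1 / 2 := by
      rw [pow_succ]
      have : (1 / 2 : ℝ) ^ K ≤ 1 := pow_le_one₀ (by norm_num) (by norm_num)
      linarith
    linarith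
  -- the error term
  have herr : ∀ i : I, (∑ ω, ∏ j, (if j = i then cf (k j) (K + 1) * ww (k j + (K + 1)) (r ω j) else
        G (k j) (r ω j))) / Fintype.card Ω ≤ 2 * (aa (K + 1) * 8 ^ n) := by
    intro i
    set u : I → ℕ → ℝ := fun j m => if j = i then (if m = K + 1 then cf (k j) m else 0) else
      2 * cf (k j) m with hu
    have hu0 : ∀ j m, 0 ≤ u j m := by
      intro j m
      have := cf_nonneg (k j) m
      simp only [hu]
      split_ifs
      · exact this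
      · exact le_rfl
      · linarith
    have h1 := expect_shift r (K + 1 + 1) k δ u hm'
    have h2 : ∀ ω, ∏ j, ∑ m ∈ range (K + 1 + 1), u j m * ww (k j + m) (r ω j) =
        ∏ j, (if j = i then cf (k j) (K + 1) * ww (k j + (K + 1)) (r ω j) else
          G (k j) (r ω j)) := by
      intro ω
      apply Finset.prod_congr rfl
      intro j _
      simp only [hu]
      split_ifs with hk
      · rw [Finset.sum_eq_single (K + 1)]
        · rw [if_pos rfl]
        · intro m _ hm; rw [if_neg hm, zero_mul]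
        · intro h; exact absurd (Finset.mem_range.2 (by omega)) h
      · rfl
    rw [Finset.sum_congr rfl fun ω _ => h2 ω] at h1
    have h3 : ∏ j, ∑ m ∈ range (K + 1 + 1), |u j m| = ∏ j, ∑ m ∈ range (K + 1 + 1), u j m := by
      apply Finset.prod_congr rfl; intro j _
      apply Finset.sum_congr rfl; intro m _
      exact abs_of_nonneg (hu0 j m)
    rw [h3] at h1
    have h4 : ∏ j, ∑ m ∈ range (K + 1 + 1), u j m ≤ aa (K + 1) * 8 ^ n := by
      refine prod_if_le i (aa_nonneg _) (by norm_num)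
        (fun j => Finset.sum_nonneg fun m _ => hu0 j m) ?_ fun j hj => ?_
      · have h5 : ∑ m ∈ range (K + 1 + 1), u i m = cf (k i) (K + 1) := by
          simp only [hu, if_true]
          rw [Finset.sum_ite_eq' (range (K + 1 + 1)) (K + 1) (cf (k i)),
            if_pos (Finset.mem_range.2 (by omega))]
        rw [h5]
        exact cf_le _ _
      · simp only [hu, if_neg hj]
        rw [← Finset.mul_sum]
        have := sum_cf_le (K + 1 + 1) (k j)
        linarith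
    have h6 : 0 ≤ ∏ j, ∑ m ∈ range (K + 1 + 1), u j m :=
      Finset.prod_nonneg fun j _ => Finset.sum_nonneg fun m _ => hu0 j m
    have h7 := (abs_le.1 h1).2
    nlinarith
  -- the main term
  have hmain := expect_shift r (K + 1 + 1) k δ (fun i m => (-1 : ℝ) ^ m * cf (k i) m) hm'
  have hms : ∀ ω, ∏ i, ∑ m ∈ range (K + 1 + 1),
      (fun i m => (-1 : ℝ) ^ m * cf (k i) m : I → ℕ → ℝ) i m * ww (k i + m) (r ω i) =
        ∏ i, S (k i) (r ω i) := fun ω => rfl
  rw [Finset.sum_congr rfl fun ω _ => hms ω] at hmain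
  have hab : ∀ j m, |(-1 : ℝ) ^ m * cf j m| = cf j m := by
    intro j m
    rw [abs_mul, abs_pow, abs_neg, abs_one, one_pow, one_mul, abs_of_nonneg (cf_nonneg j m)]
  have hm1 : δ * ∏ i, ∑ m ∈ range (K + 1 + 1), |(-1 : ℝ) ^ m * cf (k i) m| ≤ ε / 2 := by
    refine le_trans (mul_le_mul_of_nonneg_left ?_ hδ0) hδ2
    rw [hn, ← Finset.card_univ, ← Finset.prod_const]
    refine Finset.prod_le_prod (fun i _ => Finset.sum_nonneg fun m _ => abs_nonneg _) fun i _ => ?_
    simp_rw [hab]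
    have := sum_cf_le (K + 1 + 1) (k i)
    linarith
  have hmain2 : |(∑ ω, ∏ i, S (k i) (r ω i)) / Fintype.card Ω -
      ∏ i, ∑ m ∈ range (K + 1 + 1), (-1 : ℝ) ^ m * cf (k i) m| ≤ ε / 2 := hmain.trans hm1
  -- the product of the constants
  have hcc := c2_main c hc
  have hLi : ∀ i, 0 ≤ c / pk (k i) ∧ c / pk (k i) ≤ 1 := by
    intro i
    have h5 := pk_ge hc (k i)
    have h6 : 0 < pk (k i) := by linarith [hcc.2.1]
    exact ⟨div_nonneg hcc.2.1.le h6.le, (div_le_one h6).2 h5⟩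
  have hcl : |∏ i, ∑ m ∈ range (K + 1 + 1), (-1 : ℝ) ^ m * cf (k i) m - ∏ i, c / pk (k i)| ≤
      n * (16 * (1 / 2 : ℝ) ^ (K + 1) * 8 ^ n) := by
    refine (prod_diff Finset.univ (fun i => ∑ m ∈ range (K + 1 + 1), (-1 : ℝ) ^ m * cf (k i) m)
      (fun i => c / pk (k i)) (fun _ => 16 * (1 / 2 : ℝ) ^ (K + 1)) (fun _ => 4) (fun i => ?_)
      (fun i => ?_) fun i => sum_cf c hc (K + 1) (k i)).trans ?_
    · refine (Finset.abs_sum_le_sum_abs _ _).trans ?_
      simp_rw [hab]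
      exact sum_cf_le _ _
    · have := hLi i
      rw [abs_of_nonneg this.1]
      linarith [this.2]
    · calc ∑ i, ∏ j, (if j = i then 16 * (1 / 2 : ℝ) ^ (K + 1) else 4)
          ≤ ∑ _i : I, 16 * (1 / 2 : ℝ) ^ (K + 1) * 8 ^ n := by
            refine Finset.sum_le_sum fun i _ => ?_
            refine prod_if_le i (by positivity) (by norm_num) (fun j => ?_) ?_ fun j hj => ?_
            · split_ifs
              · positivity
              · norm_num
            · rw [if_pos rfl]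
            · rw [if_neg hj]; norm_num
        _ = n * (16 * (1 / 2 : ℝ) ^ (K + 1) * 8 ^ n) := by
            rw [Finset.sum_const, Finset.card_univ, nsmul_eq_mul, ← hn]
  -- the difference
  set P : ℝ := (∑ ω, if (∀ i, r ω i = k i) then (1 : ℝ) else 0) / Fintype.card Ω with hP
  set Q : ℝ := ∏ i, gl (k i) with hQ
  have hQ1 : 1 ≤ Q := by
    rw [hQ, ← Finset.prod_const_one (s := (Finset.univ : Finset I))]
    exact Finset.prod_le_prod (fun _ _ => zero_le_one) fun i _ => gl_ge (k i)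
  have hdiff : |P * Q - (∑ ω, ∏ i, S (k i) (r ω i)) / Fintype.card Ω| ≤
      n * (2 * (aa (K + 1) * 8 ^ n)) := by
    have e1 : P * Q = (∑ ω, ∏ i, (if r ω i = k i then gl (k i) else 0)) / Fintype.card Ω := by
      rw [hP, hQ, div_mul_eq_mul_div, Finset.sum_mul]
      congr 1
      exact Finset.sum_congr rfl fun ω _ => hind ω
    rw [e1, ← sub_div, ← Finset.sum_sub_distrib, abs_div, abs_of_pos hN, div_le_iff₀ hN]
    calc |∑ ω, (∏ i, (if r ω i = k i then gl (k i) else 0) - ∏ i, S (k i) (r ω i))|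
        ≤ ∑ ω, ∑ i, ∏ j, (if j = i then cf (k j) (K + 1) * ww (k j + (K + 1)) (r ω j) else
            G (k j) (r ω j)) := by
          refine (Finset.abs_sum_le_sum_abs _ _).trans (Finset.sum_le_sum fun ω _ => ?_)
          exact hpt ω
      _ = ∑ i, ∑ ω, ∏ j, (if j = i then cf (k j) (K + 1) * ww (k j + (K + 1)) (r ω j) else
            G (k j) (r ω j)) := Finset.sum_comm
      _ ≤ ∑ i : I, 2 * (aa (K + 1) * 8 ^ n) * Fintype.card Ω := by
          apply Finset.sum_le_sum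
          intro i _
          have := herr i
          rw [div_le_iff₀ hN] at this
          exact this
      _ = n * (2 * (aa (K + 1) * 8 ^ n)) * Fintype.card Ω := by
          rw [Finset.sum_const, Finset.card_univ, nsmul_eq_mul, ← hn]
          ring
  have haK := aa_le (K + 1)
  have hpK : (1 / 2 : ℝ) ^ (K + 1) = (1 / 2) ^ K / 2 := by rw [pow_succ]; ring
  have hf1 : (n : ℝ) * (2 * (aa (K + 1) * 8 ^ n)) ≤ (1 / 2 : ℝ) ^ K * (n * (2 * 8 ^ n)) := by
    have h1 : aa (K + 1) ≤ (1 / 2 : ℝ) ^ K := by rw [hpK] at haK; linarith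
    have h2 : (0 : ℝ) ≤ n * (2 * 8 ^ n) := by positivity
    nlinarith
  have hf2 : (n : ℝ) * (16 * (1 / 2 : ℝ) ^ (K + 1) * 8 ^ n) =
      8 * ((1 / 2 : ℝ) ^ K * (n * 8 ^ n)) := by
    rw [hpK]; ring
  rw [hf2] at hcl
  have hf3 : (0 : ℝ) ≤ (1 / 2 : ℝ) ^ K * (n * 8 ^ n) := by positivity
  have hf4 : (1 / 2 : ℝ) ^ K * (n * (32 * 8 ^ n)) = 32 * ((1 / 2 : ℝ) ^ K * (n * 8 ^ n)) := by ring
  have hf5 : (1 / 2 : ℝ) ^ K * (n * (2 * 8 ^ n)) = 2 * ((1 / 2 : ℝ) ^ K * (n * 8 ^ n)) := by ring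
  rw [hf4] at hKe
  rw [hf5] at hf1
  have htot : |P * Q - ∏ i, c / pk (k i)| ≤ ε := by
    rw [abs_le] at hdiff hmain2 hcl ⊢
    constructor <;> linarith
  have hfin : P - ∏ i, law c (k i) = (P * Q - ∏ i, c / pk (k i)) / Q := by
    have hQ0 : Q ≠ 0 := by linarith
    have e1 : ∏ i, law c (k i) = (∏ i, c / pk (k i)) / Q := by
      rw [hQ, ← Finset.prod_div_distrib]
      refine Finset.prod_congr rfl fun i _ => ?_
      unfold law
      rw [div_div]
    rw [e1]
    field_simp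
  rw [hfin, abs_div, abs_of_pos (by linarith : 0 < Q)]
  exact (div_le_self (abs_nonneg _) hQ1).trans htot

end Pool.Agent.H848.FL
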