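import Pool.Agent.H848.FL.Cn

/-!
# Project FL: monotonicity of the counts
-/

set_option autoImplicit false

namespace Pool.Agent.H848.FL

open Pool.Agent.H519.Q7 (ZI nrm ZB mem_ZB)
open Pool.Agent.H848.BKD (Ad)

theorem cnt_mono {m : ZI} {P Q : ZI → Prop} (h : ∀ D, Ad D → P D → Q D) (X : ℕ) :
    cnt m P X ≤ cnt m Q X := by
  unfold cnt
  refine Set.ncard_le_ncard ?_ ?_
  · rintro D ⟨h1, h2, h3, h4⟩
    exact ⟨h1, h2, h3, h D h2 h4⟩
  · refine (ZB X).finite_toSet.subset ?_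
    rintro D ⟨h1, -⟩
    exact Finset.mem_coe.2 (mem_ZB.2 h1)

end Pool.Agent.H848.FL
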