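import Pool.Agent.H848.FL.Dens
import Pool.Agent.H848.BKD.EvT

/-!
# Project FL: the coranks and the solutions of the systems
-/

set_option autoImplicit false
set_option linter.unusedVariables false
set_option linter.unusedSectionVars false

open scoped Classical

namespace Pool.Agent.H848.FL

open Finset
open Pool.Agent.H519.Q7 (ZI PP PD SS Kc fc tO dO gO eO s ZB nrm mem_ZB mem_PD prim symP)
open Pool.Agent.H848.FL.Loc (Cor Sol)
open Pool.Agent.H848.BKD (Ad Ck Ek crk crkX AA NX Xs Ys exists_ps isP_iff ck_iff ek_iff cork_eq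
  crkX_eq exists_P prm ck_crk ek_crk)
open Pool.Agent.R384 (OO qs om s7)
open Pool.Agent.NH57.BH (aa)
open Pool.Agent.NH57.BH.AG (MM)

/-- the extension by zero -/
noncomputable def ez (S : Finset ZI) (v : S → ZMod 2) (x : ZI) : ZMod 2 :=
  if h : x ∈ S then v ⟨x, h⟩ else 0

lemma ez_coe (S : Finset ZI) (v : S → ZMod 2) (x : S) : ez S v x = v x := by
  unfold ez
  rw [dif_pos x.2]

lemma ez_out (S : Finset ZI) (v : S → ZMod 2) (x : ZI) (h : x ∉ S) : ez S v x = 0 := by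
  unfold ez
  rw [dif_neg h]

lemma ez_res (S : Finset ZI) (w : ZI → ZMod 2) (h : ∀ x, x ∉ S → w x = 0) :
    ez S (fun x => w x) = w := by
  funext x
  unfold ez
  by_cases hx : x ∈ S
  · rw [dif_pos hx]
  · rw [dif_neg hx, h x hx]

/-- the row of the matrix -/
lemma aa_row {S : Finset ZI} (hS : ∀ q ∈ S, PP q) (v : S → ZMod 2) (π : S) :
    (AA S).mulVec v π = eO π * ez S v π + ∑ ρ ∈ S, s ρ π * (ez S v π + ez S v ρ) := by
  rw [Pool.Agent.H848.BKD.AA_mul, ez_coe, Pool.Agent.H519.Q7.eO_eq (hS π π.2)]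
  have h1 : ∑ ρ ∈ S, s ρ π * (v π + ez S v ρ) =
      (∑ τ ∈ S, qs (τ : OO) π) * v π + ∑ ρ : S, qs (ρ : OO) (π : OO) * v ρ := by
    rw [sum_mul, ← Finset.sum_coe_sort S (fun ρ => s ρ π * (v π + ez S v ρ)),
      ← Finset.sum_coe_sort S (fun ρ => qs ρ π * v π), ← sum_add_distrib]
    refine sum_congr rfl fun ρ _ => ?_
    rw [ez_coe, Pool.Agent.H519.Q7.s_eq_qs]
    ring
  rw [h1]
  ring

lemma mem_k1 {S : Finset ZI} (v : S → ZMod 2) :
    v ∈ LinearMap.ker (Pool.Agent.H848.BKD.BB 1 S).mulVecLin ↔ (AA S).mulVec v = 0 := by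
  have hB : Pool.Agent.H848.BKD.BB 1 S = AA S := by
    unfold Pool.Agent.H848.BKD.BB
    rw [if_neg]
    intro h
    have := congrArg QuadraticAlgebra.re h
    rw [QuadraticAlgebra.re_neg, QuadraticAlgebra.re_one] at this
    omega
  rw [LinearMap.mem_ker, Matrix.mulVecLin_apply, hB]

lemma mem_k2 {S : Finset ZI} (x y : ZMod 2) (w : Option S → ZMod 2) :
    w ∈ LinearMap.ker (Pool.Agent.H848.BKD.NB 1 x y S).mulVecLin ↔ (NX x y S).mulVec w = 0 := by
  have hB : Pool.Agent.H848.BKD.NB 1 x y S = NX x y S := by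
    unfold Pool.Agent.H848.BKD.NB
    rw [if_neg]
    intro h
    have := congrArg QuadraticAlgebra.re h
    rw [QuadraticAlgebra.re_neg, QuadraticAlgebra.re_one] at this
    omega
  rw [LinearMap.mem_ker, Matrix.mulVecLin_apply, hB]

/-- the solutions of the system of the odd weights -/
lemma card_odd {S : Finset ZI} (hS : ∀ q ∈ S, PP q) (x y : ZMod 2) :
    Nat.card (Sol 1 0 x y S) = 2 ^ crk S := by
  rw [← Pool.Agent.H848.BKD.card_ker 1 S]
  refine Nat.card_congr ⟨fun z => ⟨fun ρ => z.1.1 ρ, ?_⟩, fun v => ⟨(ez S v.1, 0), ?_⟩, ?_, ?_⟩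
  · rw [mem_k1]
    funext π
    rw [aa_row hS, ez_res S z.1.1 z.2.1, Pi.zero_apply]
    have h1 := z.2.2.1 π π.2
    have h2 := z.2.2.2
    rw [one_mul, zero_mul, add_zero] at h2
    rw [h2, zero_mul, add_zero] at h1
    exact h1
  · refine ⟨fun π hπ => ez_out S v.1 π hπ, fun π hπ => ?_, ?_⟩
    · have h1 := (mem_k1 v.1).1 v.2
      have h2 := congrFun h1 ⟨π, hπ⟩
      rw [aa_row hS, Pi.zero_apply] at h2
      show _ + (0 : ZMod 2) * _ = 0
      rw [zero_mul, add_zero]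
      exact h2
    · show (1 : ZMod 2) * 0 + 0 * _ = 0
      rw [zero_mul, mul_zero, add_zero]
  · intro z
    apply Subtype.ext
    have h2 := z.2.2.2
    rw [one_mul, zero_mul, add_zero] at h2
    exact Prod.ext (ez_res S z.1.1 z.2.1) h2.symm
  · intro v
    apply Subtype.ext
    funext ρ
    exact ez_coe S v.1 ρ

lemma nx_some {S : Finset ZI} (hS : ∀ q ∈ S, PP q) (x y : ZMod 2) (w : Option S → ZMod 2) (π : S) :
    (NX x y S).mulVec w (some π) = (eO π * ez S (fun ρ => w (some ρ)) π +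
      ∑ ρ ∈ S, s ρ π * (ez S (fun ρ => w (some ρ)) π + ez S (fun ρ => w (some ρ)) ρ)) +
      w none * (gO π + (1 + y) * tO π) := by
  have h1 : (NX x y S).mulVec w (some π) = Pool.Agent.NH57.BH.gO y π * w none +
      ∑ ρ : S, MM S π ρ * w (some ρ) := by
    rw [Matrix.mulVec, dotProduct, Fintype.sum_option]
    rfl
  have h2 : ∑ ρ : S, MM S π ρ * w (some ρ) = ∑ ρ ∈ S, MM S π ρ * ez S (fun ρ => w (some ρ)) ρ := by
    rw [← Finset.sum_coe_sort S (fun ρ => MM S π ρ * ez S (fun ρ => w (some ρ)) ρ)]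
    refine sum_congr rfl fun ρ _ => ?_
    rw [ez_coe]
  have h3 : Pool.Agent.NH57.BH.gO y π = gO (π : ZI) + (1 + y) * tO (π : ZI) := by
    unfold Pool.Agent.NH57.BH.gO
    rw [Pool.Agent.H519.Q7.gO_eq (hS π π.2), Pool.Agent.H519.Q7.tO_eq (hS π π.2)]
  rw [h1, h2, h3, Pool.Agent.NH57.BH.AG.MM_row π.2, Pool.Agent.H519.Q7.eO_eq (hS π π.2)]
  simp only [Pool.Agent.H519.Q7.s_eq_qs]
  ring

lemma nx_none {S : Finset ZI} (hS : ∀ q ∈ S, PP q) (x y : ZMod 2) (w : Option S → ZMod 2) :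
    (NX x y S).mulVec w none = aa x y * w none +
      ∑ ρ ∈ S, (dO ρ + (1 + x) * tO ρ) * ez S (fun ρ => w (some ρ)) ρ := by
  have h1 : (NX x y S).mulVec w none = aa x y * w none +
      ∑ ρ : S, Pool.Agent.NH57.BH.dO x ρ * w (some ρ) := by
    rw [Matrix.mulVec, dotProduct, Fintype.sum_option]
    rfl
  rw [h1]
  congr 1
  rw [← Finset.sum_coe_sort S (fun ρ => (dO ρ + (1 + x) * tO ρ) * ez S (fun ρ => w (some ρ)) ρ)]
  refine sum_congr rfl fun ρ _ => ?_
  rw [ez_coe]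
  unfold Pool.Agent.NH57.BH.dO
  rw [Pool.Agent.H519.Q7.dO_eq (hS ρ ρ.2), Pool.Agent.H519.Q7.tO_eq (hS ρ ρ.2)]

/-- the solutions of the system of the even weights -/
lemma card_even {S : Finset ZI} (hS : ∀ q ∈ S, PP q) (x y : ZMod 2) :
    Nat.card (Sol (aa x y) 1 x y S) = 2 ^ crkX x y S := by
  rw [← Pool.Agent.H848.BKD.card_kerX 1 x y S]
  refine Nat.card_congr ⟨fun z => ⟨fun o => match o with
      | none => z.1.2
      | some ρ => z.1.1 ρ, ?_⟩,
    fun w => ⟨(ez S (fun ρ => w.1 (some ρ)), w.1 none), ?_⟩, ?_, ?_⟩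
  · rw [mem_k2]
    funext o
    rcases o with _ | π
    · rw [nx_none hS, Pi.zero_apply]
      show aa x y * z.1.2 + ∑ ρ ∈ S, (dO ρ + (1 + x) * tO ρ) * ez S (fun ρ => z.1.1 ρ) ρ = 0
      rw [ez_res S z.1.1 z.2.1]
      have h2 := z.2.2.2
      rw [one_mul] at h2
      exact h2
    · rw [nx_some hS, Pi.zero_apply]
      show (eO (π : ZI) * ez S (fun ρ => z.1.1 ρ) π +
        ∑ ρ ∈ S, s ρ π * (ez S (fun ρ => z.1.1 ρ) π + ez S (fun ρ => z.1.1 ρ) ρ)) +
        z.1.2 * (gO (π : ZI) + (1 + y) * tO (π : ZI)) = 0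
      rw [ez_res S z.1.1 z.2.1]
      exact z.2.2.1 π π.2
  · have h1 := (mem_k2 x y w.1).1 w.2
    refine ⟨fun π hπ => ez_out S (fun ρ => w.1 (some ρ)) π hπ, fun π hπ => ?_, ?_⟩
    · have h2 := congrFun h1 (some ⟨π, hπ⟩)
      rw [nx_some hS, Pi.zero_apply] at h2
      exact h2
    · have h2 := congrFun h1 none
      rw [nx_none hS, Pi.zero_apply] at h2
      show aa x y * w.1 none + 1 * _ = 0
      rw [one_mul]
      exact h2
  · intro z
    apply Subtype.ext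
    exact Prod.ext (ez_res S z.1.1 z.2.1) rfl
  · intro w
    apply Subtype.ext
    funext o
    rcases o with _ | ρ
    · rfl
    · exact ez_coe S (fun ρ => w.1 (some ρ)) ρ

/-! ### The coranks of the elements -/

lemma bps_pp {S : Finset OO} (h : Pool.Agent.H848.BKD.PS S) : ∀ q ∈ S, PP q := fun q hq =>
  Pool.Agent.H519.Q7.prim_iff_Pp.2 (h.pp q hq)

/-- the admissible elements -/
lemma ad_iff {D : ZI} : Ad D ↔ Pool.Agent.H519.Q7.PS D ∧ tO D = 0 := by
  constructor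
  · intro h
    obtain ⟨S, hS, hprod, -⟩ := exists_ps h
    have h1 := Pool.Agent.H519.Q7.PS_prod (bps_pp hS)
    rw [hprod] at h1
    refine ⟨h1.1, ?_⟩
    obtain ⟨c, hc⟩ := h.2
    have hD : D = 4 * c + 1 := by linear_combination hc
    have h4re : (4 : ZI).re = 4 := rfl
    have h4im : (4 : ZI).im = 0 := rfl
    have h1re : (1 : ZI).re = 1 := rfl
    have h1im : (1 : ZI).im = 0 := rfl
    have e1 : D.re = 4 * c.re + 1 := by
      rw [hD, QuadraticAlgebra.re_add, QuadraticAlgebra.re_mul, h4re, h4im, h1re]; simp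
    have e2 : D.im = 4 * c.im := by
      rw [hD, QuadraticAlgebra.im_add, QuadraticAlgebra.im_mul, h4re, h4im, h1im]; simp
    unfold Pool.Agent.H519.Q7.tO Pool.Agent.H519.Q7.c3
    rw [if_neg]
    omega
  · rintro ⟨h, h0⟩
    refine ⟨?_, ?_⟩
    · have hs7 : Prime s7 := Pool.Agent.R384.prime_s7
      have hnd : ¬ s7 ∣ D := by
        rw [Pool.Agent.H519.Q7.s7_dvd_iff]
        exact h.prm.seven
      rw [squarefree_mul_iff]
      refine ⟨?_, hs7.irreducible.squarefree, h.sqf⟩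
      exact (hs7.irreducible.coprime_iff_not_dvd.2 hnd).isRelPrime
    · have h1 := h.prm.six
      have h2 := h.prm.three
      unfold Pool.Agent.H519.Q7.tO at h0
      have h3 : ¬ Pool.Agent.H519.Q7.c3 D % 4 = 3 := by
        intro h4
        rw [if_pos h4] at h0
        exact absurd h0 (by decide)
      unfold Pool.Agent.H519.Q7.c6 at h1
      unfold Pool.Agent.H519.Q7.c3 at h2 h3
      refine ⟨⟨(D.re - 1) / 4, D.im / 4⟩, ?_⟩
      have h4re : (4 : ZI).re = 4 := rfl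
      have h4im : (4 : ZI).im = 0 := rfl
      have h1re : (1 : ZI).re = 1 := rfl
      have h1im : (1 : ZI).im = 0 := rfl
      ext
      · rw [QuadraticAlgebra.re_sub, QuadraticAlgebra.re_mul, h4re, h4im, h1re]
        simp only
        omega
      · rw [QuadraticAlgebra.im_sub, QuadraticAlgebra.im_mul, h4re, h4im, h1im]
        simp only
        omega

/-- the systems of the odd weights -/
def OddC (S : Finset ZI) (k : ℕ) : Prop := Cor (fun _ => 1) (fun _ => 0) (fun _ => 0) (fun _ => 0) S k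

/-- the systems of the even weights -/
def EvenC (S : Finset ZI) (k : ℕ) : Prop :=
  Cor (fun l => aa l.2.1 l.2.2.1) (fun _ => 1) (fun l => l.2.1) (fun l => l.2.2.1) S k

lemma pd_of {D : ZI} {S : Finset OO} (hS : Pool.Agent.H848.BKD.PS S) (hD : ∏ q ∈ S, q = D) :
    PD D = S := by
  have h1 := (Pool.Agent.H519.Q7.PS_prod (bps_pp hS)).2
  rwa [hD] at h1

lemma pow_inj {a b : ℕ} : 2 ^ a = 2 ^ b ↔ a = b := (Nat.pow_right_injective (le_refl 2)).eq_iff

/-- the corank of the odd weights -/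
lemma ck_pd {D : ZI} (hD : Ad D) (k : ℕ) : Ck D k ↔ OddC (PD D) k := by
  obtain ⟨S, hS, hprod, hf, hDe⟩ := exists_ps hD
  have hP := (isP_iff hS hf hDe (insert (-s7) S)).2 rfl
  have h2 : Ck D k ↔ k = crk S := by
    rw [ck_iff hP, cork_eq hS]
  rw [h2, pd_of hS hprod]
  unfold OddC Cor
  rw [card_odd (bps_pp hS), pow_inj]
  exact eq_comm

lemma sum_d {S : Finset ZI} (hS : ∀ q ∈ S, PP q) : (∑ π ∈ S, fc π).2.1 = Xs S := by
  have h1 : (∑ π ∈ S, fc π).2.1 = ∑ π ∈ S, dO π := by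
    rw [Prod.snd_sum, Prod.fst_sum]
    rfl
  rw [h1]
  unfold Pool.Agent.H848.BKD.Xs
  exact sum_congr rfl fun q hq => Pool.Agent.H519.Q7.dO_eq (hS q hq)

lemma sum_g {S : Finset ZI} (hS : ∀ q ∈ S, PP q) : (∑ π ∈ S, fc π).2.2.1 = Ys S := by
  have h1 : (∑ π ∈ S, fc π).2.2.1 = ∑ π ∈ S, gO π := by
    rw [Prod.snd_sum, Prod.snd_sum, Prod.fst_sum]
    rfl
  rw [h1]
  unfold Pool.Agent.H848.BKD.Ys
  refine sum_congr rfl fun q hq => ?_
  rw [Pool.Agent.H519.Q7.gO_eq (hS q hq), neg_sub]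

/-- the corank of the even weights -/
lemma ek_pd {D : ZI} (hD : Ad D) (k : ℕ) : Ek D k ↔ EvenC (PD D) k := by
  obtain ⟨S, hS, hprod, hf, hDe⟩ := exists_ps hD
  have hP := (isP_iff hS hf hDe (insert (-s7) S)).2 rfl
  have h2 : Ek D k ↔ k = crkX (Xs S) (Ys S) S := by
    have h3 := Pool.Agent.H848.BKD.rank_EM_le hD hP
    rw [ek_iff hD hP, crkX_eq hS]
    omega
  rw [h2, pd_of hS hprod]
  unfold EvenC Cor
  beta_reduce
  rw [sum_d (bps_pp hS), sum_g (bps_pp hS), card_even (bps_pp hS), pow_inj]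
  exact eq_comm

end Pool.Agent.H848.FL
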